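import Pool.Agent.N826.IT.A

set_option autoImplicit false

/-!
Iterated totients, part B: the number of rough `r` with a nice chain `φ r`, `φ (φ r)`, … and an exceptional last value.
-/

namespace Pool.Agent.N826.IT

open Finset Classical
open Pool.Agent.N733.TG

lemma sm_tot : SM Nat.totient (-1) where
  mul := fun m n h => Nat.totient_mul h
  pos := fun m hm => Nat.totient_pos.2 hm
  growth := ⟨1, 1, fun m _ => by rw [one_mul, pow_one]; exact Nat.totient_le m⟩
  prime := ⟨0, fun p _ hp => by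
    rw [Nat.totient_prime hp]
    have := hp.pos
    omega⟩

/-- nice chains starting with `q * r` whose last value is exceptional; the list contains the thresholds of the steps -/
def BN (f : ℕ → ℕ) (a : ℤ) (Good : ℕ → Prop) (K : ℕ) : List ℕ → ℕ → ℕ → ℕ → Prop
  | [], z, q, r => Squarefree r ∧ Rough z r ∧ 0 < (f q : ℤ) * f r + a ∧
      ¬ Good ((f q : ℤ) * f r + a).toNat
  | z' :: zs, z, q, r => Squarefree r ∧ Rough z r ∧ sp z' (Nat.totient r) ≤ K ∧
      BN f a Good K zs z' (Nat.totient q * sp z' (Nat.totient r)) (rp z' (Nat.totient r))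

lemma BN_sq {f : ℕ → ℕ} {a : ℤ} {Good : ℕ → Prop} {K : ℕ} : ∀ {zs : List ℕ} {z q r : ℕ},
    BN f a Good K zs z q r → Squarefree r ∧ Rough z r
  | [], _, _, _, h => ⟨h.1, h.2.1⟩
  | _ :: _, _, _, _, h => ⟨h.1, h.2.1⟩

/-- the sum over one value of the smooth part -/
lemma one_s {z z' J : ℕ} {y s : ℕ} {N : ℕ} (hz : N < (z + 1) ^ (J + 1)) (hyN : y ≤ N) (hs : 1 ≤ s)
    (P : ℕ → Prop) (U : Finset ℕ) (hU : ∀ r ∈ U, 1 ≤ r ∧ r ≤ y ∧ Squarefree r ∧ Rough z r ∧
      sp z' (Nat.totient r) = s ∧ P (rp z' (Nat.totient r))) (W : ℝ)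
    (hW : (((Icc 1 (y / s)).filter P).card : ℝ) ≤ ((y / s : ℕ) : ℝ) / W) (hW0 : 0 < W) (L : ℝ)
    (hL : 1 + Real.log ((y / s : ℕ) : ℝ) ≤ 2 * L) :
    ((U.card : ℝ)) ^ 2 ≤ (2 ^ J * (s.divisors.card : ℝ) ^ J) ^ 2 *
      (((y : ℝ) / s) ^ 2 * (2 * L) ^ (2 ^ (2 * J)) / W) := by
  set V := (Icc 1 (y / s)).filter P with hV
  have hs0 : (0 : ℝ) < s := by exact_mod_cast hs
  -- every member of `U` is mapped into `V`
  have hmap : ∀ r ∈ U, rp z' (Nat.totient r) ∈ V := by
    intro r hr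
    obtain ⟨h1, h2, h3, h4, h5, h6⟩ := hU r hr
    have hφ : Nat.totient r ≠ 0 := (Nat.totient_pos.2 h1).ne'
    have hmul := sp_mul_rp z' (Nat.totient r) hφ
    rw [h5] at hmul
    rw [hV, mem_filter, mem_Icc]
    refine ⟨⟨rp_pos _ _, ?_⟩, h6⟩
    rw [Nat.le_div_iff_mul_le hs, mul_comm, hmul]
    exact (Nat.totient_le r).trans h2
  have h1 : (U.card : ℝ) ≤ ∑ v ∈ V, (2 ^ J * (s.divisors.card : ℝ) ^ J) * (v.divisors.card : ℝ) ^ J := by
    have e1 : U.card = ∑ v ∈ V, (U.filter (fun r => rp z' (Nat.totient r) = v)).card :=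
      card_eq_sum_card_fiberwise (fun r hr => hmap r hr)
    rw [e1]
    push_cast
    apply sum_le_sum
    intro v hv
    rw [hV, mem_filter, mem_Icc] at hv
    set U' := U.filter (fun r => rp z' (Nat.totient r) = v) with hU'
    rcases Finset.eq_empty_or_nonempty U' with h0 | ⟨r0, hr0⟩
    · rw [h0, card_empty, Nat.cast_zero]
      positivity
    have hval : ∀ r ∈ U', Nat.totient r = s * v := by
      intro r hr
      rw [hU', mem_filter] at hr
      obtain ⟨g1, g2, g3, g4, g5, g6⟩ := hU r hr.1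
      have hφ : Nat.totient r ≠ 0 := (Nat.totient_pos.2 g1).ne'
      rw [← sp_mul_rp z' (Nat.totient r) hφ, g5, hr.2]
    have hcop : Nat.Coprime s v := by
      rw [hU', mem_filter] at hr0
      obtain ⟨g1, g2, g3, g4, g5, g6⟩ := hU r0 hr0.1
      rw [← g5, ← hr0.2]
      exact coprime_sp_rp z' _
    have h2 := fiber sm_tot (P := 0) (fun p _ hp => by
      rw [Nat.totient_prime hp]
      have := hp.pos
      omega) (z := z) (J := J) (v := s * v) (Nat.zero_le _) (Nat.mul_pos hs hv.1.1) U'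
      (fun u hu => (hU u (mem_filter.1 hu).1).2.2.1) (fun u hu => (hU u (mem_filter.1 hu).1).2.2.2.1)
      (fun u hu => by
        obtain ⟨g1, g2, g3, g4, g5, g6⟩ := hU u (mem_filter.1 hu).1
        exact omega_le hz g4 g1 (g2.trans hyN)) hval
    have h3 : 1 ≤ (s * v).divisors.card := by
      rw [Nat.one_le_iff_ne_zero, Finset.card_ne_zero]
      exact ⟨1, Nat.one_mem_divisors.2 (Nat.mul_pos hs hv.1.1).ne'⟩
    have h4 : ((s * v).divisors.card + 1) ^ J ≤ (2 * (s * v).divisors.card) ^ J :=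
      Nat.pow_le_pow_left (by omega) J
    have h5 : ((U'.card : ℕ) : ℝ) ≤ (((2 * (s * v).divisors.card) ^ J : ℕ) : ℝ) := by
      exact_mod_cast h2.trans h4
    refine h5.trans (le_of_eq ?_)
    rw [Nat.Coprime.card_divisors_mul hcop]
    push_cast
    rw [mul_pow, mul_pow]
    ring
  rw [← mul_sum] at h1
  have h6 : (∑ v ∈ V, (v.divisors.card : ℝ) ^ J) ^ 2 ≤ V.card *
      (((y / s : ℕ) : ℝ) * (2 * L) ^ (2 ^ (2 * J))) := by
    apply cauchy_card
    have h7 := Pool.Agent.TH935.LD.tau_pow_sum (2 * J) (y / s)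
    calc ∑ v ∈ V, ((v.divisors.card : ℝ) ^ J) ^ 2 = ∑ v ∈ V, (v.divisors.card : ℝ) ^ (2 * J) := by
          apply sum_congr rfl
          intro v _
          rw [← pow_mul, mul_comm]
      _ ≤ ∑ v ∈ Icc 1 (y / s), (v.divisors.card : ℝ) ^ (2 * J) := by
          apply sum_le_sum_of_subset_of_nonneg (filter_subset _ _)
          intro v _ _
          positivity
      _ ≤ _ := h7
      _ ≤ _ := by
          apply mul_le_mul_of_nonneg_left _ (Nat.cast_nonneg _)
          apply pow_le_pow_left₀ _ hL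
          have : 0 ≤ Real.log ((y / s : ℕ) : ℝ) := Real.log_natCast_nonneg _
          linarith
  have hL0 : 0 ≤ 2 * L := by
    have : 0 ≤ Real.log ((y / s : ℕ) : ℝ) := Real.log_natCast_nonneg _
    linarith
  have h8 : ((y / s : ℕ) : ℝ) ≤ (y : ℝ) / s := Nat.cast_div_le
  calc (U.card : ℝ) ^ 2 ≤ ((2 ^ J * (s.divisors.card : ℝ) ^ J) * ∑ v ∈ V, (v.divisors.card : ℝ) ^ J) ^ 2 :=
        pow_le_pow_left₀ (Nat.cast_nonneg _) h1 2
    _ = (2 ^ J * (s.divisors.card : ℝ) ^ J) ^ 2 * (∑ v ∈ V, (v.divisors.card : ℝ) ^ J) ^ 2 := mul_pow _ _ _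
    _ ≤ (2 ^ J * (s.divisors.card : ℝ) ^ J) ^ 2 *
      (((y : ℝ) / s) ^ 2 * (2 * L) ^ (2 ^ (2 * J)) / W) := by
        apply mul_le_mul_of_nonneg_left _ (by positivity)
        refine h6.trans ?_
        calc (V.card : ℝ) * (((y / s : ℕ) : ℝ) * (2 * L) ^ (2 ^ (2 * J)))
            ≤ (((y : ℝ) / s) / W) * (((y : ℝ) / s) * (2 * L) ^ (2 ^ (2 * J))) := by
              apply mul_le_mul
              · exact hW.trans (div_le_div_of_nonneg_right h8 hW0.le)
              · exact mul_le_mul_of_nonneg_right h8 (by positivity)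
              · positivity
              · positivity
          _ = _ := by ring

theorem count {f : ℕ → ℕ} {c : ℤ} (hf : SM f c) (a : ℤ) (Good : ℕ → Prop) (hE : ∀ A, EB a Good A)
    {C D : ℕ} (hCD : ∀ m : ℕ, 1 ≤ m → f m ≤ C * m ^ D) : ∀ (Js : List ℕ) (J T : ℕ), ∃ N₀ : ℕ,
    ∀ N : ℕ, N₀ ≤ N → ∀ K : ℕ, 1 ≤ K → K ≤ N → ∀ (zs : List ℕ) (z : ℕ),
      List.Forall₂ (fun J z => N < (z + 1) ^ (J + 1)) Js zs → N < (z + 1) ^ (J + 1) →
      ∀ q y : ℕ, 1 ≤ q → y ≤ N → C * (q * K ^ zs.length) ^ D * (2 * K) ^ zs.length ≤ y →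
      N * (2 * K) ^ (2 * zs.length) ≤ y ^ 2 →
      (((Icc 1 y).filter (fun r => BN f a Good K zs z q r)).card : ℝ) ≤ y / Real.log N ^ T := by
  intro Js
  induction Js with
  | nil =>
    intro J T
    obtain ⟨N₀, h⟩ := UkT hf a Good J T hE
    refine ⟨N₀, fun N hN K hK hKN zs z hzs hz q y hq hy h1 h2 => ?_⟩
    cases hzs
    simp only [List.length_nil, pow_zero, mul_one, mul_zero] at h1 h2
    have e : (Icc 1 y).filter (fun r => BN f a Good K [] z q r) = UU f a Good z q y := by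
      ext r
      rw [UU, mem_filter, mem_filter]
      exact Iff.rfl
    rw [e]
    exact h N hN z q y hz hq hy ((hCD q hq).trans h1) h2
  | cons J' Js ih =>
    intro J T
    obtain ⟨B1, hB1⟩ : ∃ B, B = 2 ^ (2 * J) := ⟨_, rfl⟩
    obtain ⟨B2, hB2⟩ : ∃ B, B = 2 ^ J := ⟨_, rfl⟩
    obtain ⟨T1, hT1⟩ : ∃ t, t = T + B2 + 1 := ⟨_, rfl⟩
    obtain ⟨N₁, h⟩ := ih J' (B1 + 2 * T1)
    obtain ⟨n2, hn2⟩ := Pool.Agent.TH935.LD.ev_L' (2 ^ (J + B1 + B2) + 1)
    refine ⟨max N₁ (max n2 3), fun N hN K hK hKN zs0 z hzs hz q y hq hy h1 h2 => ?_⟩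
    have b1 : N₁ ≤ N := le_trans (le_max_left _ _) hN
    have b2 : n2 ≤ N := le_trans (le_trans (le_max_left _ _) (le_max_right _ _)) hN
    have b3 : 3 ≤ N := le_trans (le_trans (le_max_right _ _) (le_max_right _ _)) hN
    obtain ⟨L, hL⟩ : ∃ L, L = Real.log N := ⟨_, rfl⟩
    have hLbig : (2 : ℝ) ^ (J + B1 + B2) + 1 ≤ L := by rw [hL]; exact_mod_cast hn2 N b2
    have hL1 : 1 ≤ L := by
      have : (0 : ℝ) ≤ 2 ^ (J + B1 + B2) := by positivity
      linarith
    obtain ⟨z', zs, hz', hzs', rfl⟩ : ∃ z' zs, N < (z' + 1) ^ (J' + 1) ∧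
        List.Forall₂ (fun J z => N < (z + 1) ^ (J + 1)) Js zs ∧ zs0 = z' :: zs := by
      cases hzs with
      | cons g1 g2 => exact ⟨_, _, g1, g2, rfl⟩
    rw [List.length_cons] at h1 h2
    obtain ⟨i, hi⟩ : ∃ i, i = zs.length := ⟨_, rfl⟩
    rw [← hi] at h1 h2
    have hKy : 2 * K ≤ y := by
      have e1 : (2 * K) ^ 2 ≤ y ^ 2 := by
        calc (2 * K) ^ 2 ≤ N * (2 * K) ^ (2 * (i + 1)) := by
              have e2 : (2 * K) ^ 2 ≤ (2 * K) ^ (2 * (i + 1)) :=
                Nat.pow_le_pow_right (by omega) (by omega)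
              nlinarith
          _ ≤ y ^ 2 := h2
      exact (Nat.pow_le_pow_iff_left (by norm_num)).1 e1
    set U := (Icc 1 y).filter (fun r => BN f a Good K (z' :: zs) z q r) with hU
    have hs_bound : ∀ s ∈ Icc 1 K, ((U.filter (fun r => sp z' (Nat.totient r) = s)).card : ℝ) ≤
        2 ^ (J + B1) * y / L ^ T1 * ((s.divisors.card : ℝ) ^ J / s) := by
      intro s hs
      rw [mem_Icc] at hs
      have hs0 : (0 : ℝ) < s := by exact_mod_cast hs.1
      have hy' : y ≤ 2 * K * (y / s) := by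
        have e1 : y < s * (y / s + 1) := Nat.lt_mul_div_succ y (by omega)
        have e2 : 1 ≤ y / s := by
          rw [Nat.le_div_iff_mul_le (by omega)]
          omega
        nlinarith
      have hIH := h N b1 K hK hKN zs z' hzs' hz' (Nat.totient q * s) (y / s)
        (Nat.mul_pos (Nat.totient_pos.2 hq) hs.1) ((Nat.div_le_self _ _).trans hy) (by
          rw [← hi, Nat.le_div_iff_mul_le (by omega)]
          calc C * (Nat.totient q * s * K ^ i) ^ D * (2 * K) ^ i * s
              ≤ C * (q * K ^ (i + 1)) ^ D * (2 * K) ^ i * (2 * K) := by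
                apply Nat.mul_le_mul _ (by omega)
                apply Nat.mul_le_mul_right
                apply Nat.mul_le_mul_left
                apply Nat.pow_le_pow_left
                calc Nat.totient q * s * K ^ i ≤ q * K * K ^ i :=
                      Nat.mul_le_mul_right _ (Nat.mul_le_mul (Nat.totient_le q) hs.2)
                  _ = q * K ^ (i + 1) := by ring
            _ = C * (q * K ^ (i + 1)) ^ D * (2 * K) ^ (i + 1) := by ring
            _ ≤ y := h1) (by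
          rw [← hi]
          have e1 : (N * (2 * K) ^ (2 * i)) * (2 * K) ^ 2 ≤ (y / s) ^ 2 * (2 * K) ^ 2 := by
            calc (N * (2 * K) ^ (2 * i)) * (2 * K) ^ 2 = N * (2 * K) ^ (2 * (i + 1)) := by ring
              _ ≤ y ^ 2 := h2
              _ ≤ (2 * K * (y / s)) ^ 2 := Nat.pow_le_pow_left hy' 2
              _ = (y / s) ^ 2 * (2 * K) ^ 2 := by ring
          exact Nat.le_of_mul_le_mul_right e1 (by positivity))
      rw [← hL] at hIH
      have hlogy : 1 + Real.log ((y / s : ℕ) : ℝ) ≤ 2 * L := by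
        have e1 : Real.log ((y / s : ℕ) : ℝ) ≤ L := by
          rw [hL]
          rcases Nat.eq_zero_or_pos (y / s) with h0 | h0
          · rw [h0, Nat.cast_zero, Real.log_zero]
            exact Real.log_natCast_nonneg _
          · exact Real.log_le_log (by exact_mod_cast h0)
              (by exact_mod_cast (Nat.div_le_self _ _).trans hy)
        linarith
      have h3 := one_s (z' := z') hz hy hs.1 (fun v => BN f a Good K zs z' (Nat.totient q * s) v)
        (U.filter (fun r => sp z' (Nat.totient r) = s)) (by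
          intro r hr
          rw [mem_filter, hU, mem_filter, mem_Icc] at hr
          obtain ⟨⟨⟨g1, g2⟩, g3⟩, g4⟩ := hr
          obtain ⟨k1, k2, k3, k4⟩ := g3
          refine ⟨g1, g2, k1, k2, g4, ?_⟩
          rw [g4] at k4
          exact k4) (L ^ (B1 + 2 * T1)) hIH (by positivity) L hlogy
      rw [← hB1] at h3
      have h4 : (2 ^ J * (s.divisors.card : ℝ) ^ J) ^ 2 *
          (((y : ℝ) / s) ^ 2 * (2 * L) ^ B1 / L ^ (B1 + 2 * T1)) ≤
          (2 ^ (J + B1) * y / L ^ T1 * ((s.divisors.card : ℝ) ^ J / s)) ^ 2 := by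
        have e1 : (2 ^ J * (s.divisors.card : ℝ) ^ J) ^ 2 *
          (((y : ℝ) / s) ^ 2 * (2 * L) ^ B1 / L ^ (B1 + 2 * T1)) =
          2 ^ B1 * (2 ^ J * y / L ^ T1 * ((s.divisors.card : ℝ) ^ J / s)) ^ 2 := by
          rw [mul_pow 2 L, pow_add L]
          field_simp
          ring
        have e2 : (2 ^ (J + B1) * (y : ℝ) / L ^ T1 * ((s.divisors.card : ℝ) ^ J / s)) ^ 2 =
          (2 ^ B1) ^ 2 * (2 ^ J * y / L ^ T1 * ((s.divisors.card : ℝ) ^ J / s)) ^ 2 := by
          rw [pow_add (2 : ℝ) J B1]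
          ring
        rw [e1, e2]
        apply mul_le_mul_of_nonneg_right _ (by positivity)
        have : (1 : ℝ) ≤ 2 ^ B1 := one_le_pow₀ (by norm_num)
        nlinarith
      exact (pow_le_pow_iff_left₀ (Nat.cast_nonneg _) (by positivity) (by norm_num)).1 (h3.trans h4)
    have hcard : U.card = ∑ s ∈ Icc 1 K, (U.filter (fun r => sp z' (Nat.totient r) = s)).card := by
      apply card_eq_sum_card_fiberwise
      intro r hr
      rw [mem_coe, hU, mem_filter] at hr
      rw [mem_coe, mem_Icc]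
      exact ⟨sp_pos _ _, hr.2.2.2.1⟩
    have h5 := Pool.Agent.TH935.LD.tau_pow_div J K
    rw [← hB2] at h5
    have hlogK : 1 + Real.log K ≤ 2 * L := by
      have e1 : Real.log K ≤ L := by
        rw [hL]
        exact Real.log_le_log (by exact_mod_cast hK) (by exact_mod_cast hKN)
      linarith
    have hlogK0 : 0 ≤ 1 + Real.log K := by
      have : 0 ≤ Real.log (K : ℝ) := Real.log_natCast_nonneg _
      linarith
    have hy0 : (0 : ℝ) ≤ y := Nat.cast_nonneg _
    calc (U.card : ℝ) = ∑ s ∈ Icc 1 K, ((U.filter (fun r => sp z' (Nat.totient r) = s)).card : ℝ) := by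
          rw [hcard]; push_cast; rfl
      _ ≤ ∑ s ∈ Icc 1 K, 2 ^ (J + B1) * y / L ^ T1 * ((s.divisors.card : ℝ) ^ J / s) := sum_le_sum hs_bound
      _ = 2 ^ (J + B1) * y / L ^ T1 * ∑ s ∈ Icc 1 K, ((s.divisors.card : ℝ) ^ J / s) := by rw [mul_sum]
      _ ≤ 2 ^ (J + B1) * y / L ^ T1 * (2 * L) ^ B2 := by
          apply mul_le_mul_of_nonneg_left _ (by positivity)
          exact h5.trans (pow_le_pow_left₀ hlogK0 hlogK B2)
      _ = 2 ^ (J + B1 + B2) * y / (L ^ T * L) := by
          rw [hT1, mul_pow, pow_add L, pow_add L, pow_one, pow_add (2 : ℝ) (J + B1) B2]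
          field_simp
      _ ≤ y / L ^ T := by
          rw [div_le_div_iff₀ (by positivity) (by positivity)]
          have e1 : (2 : ℝ) ^ (J + B1 + B2) ≤ L := by linarith
          calc 2 ^ (J + B1 + B2) * (y : ℝ) * L ^ T ≤ L * (y : ℝ) * L ^ T := by
                apply mul_le_mul_of_nonneg_right _ (by positivity)
                exact mul_le_mul_of_nonneg_right e1 hy0
            _ = y * (L ^ T * L) := by ring
      _ = y / Real.log N ^ T := by rw [hL]

end Pool.Agent.N826.IT
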