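import Pool.Agent.N826.IT.B
import Pool.Agent.TH935.DSB

set_option autoImplicit false

/-!
Iterated totients, part C: chains of prime factors of the iterates of the totient, and the squares of large primes
dividing them.
-/

namespace Pool.Agent.N826.IT

open Finset Classical
open Pool.Agent.N733.TG

/-- the primes in `(z, N]` -/
noncomputable def PR (z N : ℕ) : Finset ℕ := (Ioc z N).filter Nat.Prime

lemma mem_PR {z N p : ℕ} : p ∈ PR z N ↔ (z < p ∧ p ≤ N) ∧ p.Prime := by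
  unfold PR
  rw [mem_filter, mem_Ioc]

/-- sum over the prime factors in `(z, N]` -/
noncomputable def S (z N : ℕ) (α : ℕ → ℝ) (n : ℕ) : ℝ := ∑ p ∈ PR z N, if p ∣ n then α p else 0

/-- sum over the pairs of prime factors in `(z, N]` -/
noncomputable def S2 (z N : ℕ) (β : ℕ → ℕ → ℝ) (n : ℕ) : ℝ :=
  ∑ p ∈ PR z N, ∑ p' ∈ PR z N, if p ≠ p' ∧ p ∣ n ∧ p' ∣ n then β p p' else 0

/-- transition to the prime factors of `q - 1` -/
noncomputable def T (z N : ℕ) (α : ℕ → ℝ) (q : ℕ) : ℝ := S z N α (q - 1)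

noncomputable def T2 (z N : ℕ) (β : ℕ → ℕ → ℝ) (q q' : ℕ) : ℝ :=
  ∑ p ∈ PR z N, ∑ p' ∈ PR z N, if p ≠ p' ∧ p ∣ q - 1 ∧ p' ∣ q' - 1 then β p p' else 0

/-- harmonic sums -/
noncomputable def H (z N : ℕ) (α : ℕ → ℝ) : ℝ := ∑ p ∈ PR z N, α p / p

noncomputable def H2 (z N : ℕ) (β : ℕ → ℕ → ℝ) : ℝ :=
  ∑ p ∈ PR z N, ∑ p' ∈ PR z N, if p ≠ p' then β p p' / (p * p') else 0

/-- no square of a prime in `(z, N]` divides `n` -/
def NoSq (z N n : ℕ) : Prop := ∀ p ∈ PR z N, ¬ p ^ 2 ∣ n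

section basic
variable {z N : ℕ}

lemma S_nonneg {α : ℕ → ℝ} (h : ∀ p, 0 ≤ α p) (n : ℕ) : 0 ≤ S z N α n :=
  sum_nonneg fun p _ => by split_ifs; exacts [h p, le_rfl]

lemma T_nonneg {α : ℕ → ℝ} (h : ∀ p, 0 ≤ α p) (n : ℕ) : 0 ≤ T z N α n := S_nonneg h _

lemma S2_nonneg {β : ℕ → ℕ → ℝ} (h : ∀ p p', 0 ≤ β p p') (n : ℕ) : 0 ≤ S2 z N β n :=
  sum_nonneg fun p _ => sum_nonneg fun p' _ => by split_ifs; exacts [h p p', le_rfl]

lemma T2_nonneg {β : ℕ → ℕ → ℝ} (h : ∀ p p', 0 ≤ β p p') (n n' : ℕ) : 0 ≤ T2 z N β n n' :=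
  sum_nonneg fun p _ => sum_nonneg fun p' _ => by split_ifs; exacts [h p p', le_rfl]

/-- the product over the prime factors -/
lemma not_dvd_quot {n p : ℕ} (hn : 1 ≤ n) (hp : p.Prime) (h : ¬ p ^ 2 ∣ n) :
    ¬ p ∣ n / ∏ q ∈ n.primeFactors, q := by
  intro hd
  have h1 : ∏ q ∈ n.primeFactors, q ∣ n := Nat.prod_primeFactors_dvd n
  have h2 : p ∣ n := hd.trans (Nat.div_dvd_of_dvd h1)
  have h3 : p ∣ ∏ q ∈ n.primeFactors, q :=
    dvd_prod_of_mem (fun q => q) (Nat.mem_primeFactors.2 ⟨hp, h2, by omega⟩)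
  apply h
  rw [pow_two, ← Nat.div_mul_cancel h1]
  exact Nat.mul_dvd_mul hd h3

lemma exists_factor {n p : ℕ} (hn : 1 ≤ n) (hnN : n ≤ N) (hpr : p ∈ PR z N) (h : ¬ p ^ 2 ∣ n)
    (hd : p ∣ Nat.totient n) : ∃ q ∈ PR z N, q ∣ n ∧ p ∣ q - 1 := by
  obtain ⟨⟨h1, h2⟩, hp⟩ := mem_PR.1 hpr
  rw [Nat.totient_eq_div_primeFactors_mul] at hd
  have h3 := (hp.dvd_mul.1 hd).resolve_left (not_dvd_quot hn hp h)
  obtain ⟨q, hq, hqd⟩ := (Prime.dvd_finsetProd_iff hp.prime _).1 h3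
  rw [Nat.mem_primeFactors] at hq
  have hq2 := hq.1.two_le
  have h4 := Nat.le_of_dvd (by omega) hqd
  have h5 := Nat.le_of_dvd (by omega) hq.2.1
  exact ⟨q, mem_PR.2 ⟨⟨by omega, by omega⟩, hq.1⟩, hq.2.1, hqd⟩

lemma exists_square {n p : ℕ} (hn : 1 ≤ n) (hnN : n ≤ N) (hpr : p ∈ PR z N) (h : ¬ p ^ 2 ∣ n)
    (hd : p ^ 2 ∣ Nat.totient n) : (∃ q ∈ PR z N, q ∣ n ∧ p ^ 2 ∣ q - 1) ∨
      ∃ q ∈ PR z N, ∃ q' ∈ PR z N, q ≠ q' ∧ q ∣ n ∧ q' ∣ n ∧ p ∣ q - 1 ∧ p ∣ q' - 1 := by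
  obtain ⟨⟨h1, h2⟩, hp⟩ := mem_PR.1 hpr
  have hd' := hd
  rw [Nat.totient_eq_div_primeFactors_mul] at hd'
  have hc : Nat.Coprime (p ^ 2) (n / ∏ q ∈ n.primeFactors, q) := by
    apply Nat.Coprime.pow_left
    rw [hp.coprime_iff_not_dvd]
    exact not_dvd_quot hn hp h
  have h3 : p ^ 2 ∣ ∏ q ∈ n.primeFactors, (q - 1) := hc.dvd_of_dvd_mul_left hd'
  have h3' : p ∣ ∏ q ∈ n.primeFactors, (q - 1) := (dvd_pow_self p (by norm_num)).trans h3
  have key : ∀ q ∈ n.primeFactors, p ∣ q - 1 → q ∈ PR z N ∧ q ∣ n := by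
    intro q hq hqd
    rw [Nat.mem_primeFactors] at hq
    have hq2 := hq.1.two_le
    have h4 := Nat.le_of_dvd (by omega) hqd
    have h5 := Nat.le_of_dvd (by omega) hq.2.1
    exact ⟨mem_PR.2 ⟨⟨by omega, by omega⟩, hq.1⟩, hq.2.1⟩
  obtain ⟨q, hq, hqd⟩ := (Prime.dvd_finsetProd_iff hp.prime _).1 h3'
  by_cases h6 : p ^ 2 ∣ q - 1
  · left
    obtain ⟨g1, g2⟩ := key q hq hqd
    exact ⟨q, g1, g2, h6⟩
  · right
    rw [← mul_prod_erase _ _ hq] at h3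
    have h7 : p ∣ ∏ x ∈ n.primeFactors.erase q, (x - 1) := by
      by_contra h8
      have h9 : Nat.Coprime (p ^ 2) (∏ x ∈ n.primeFactors.erase q, (x - 1)) := by
        apply Nat.Coprime.pow_left
        rw [hp.coprime_iff_not_dvd]
        exact h8
      exact h6 (h9.dvd_of_dvd_mul_right h3)
    obtain ⟨q', hq', hqd'⟩ := (Prime.dvd_finsetProd_iff hp.prime _).1 h7
    rw [mem_erase] at hq'
    obtain ⟨g1, g2⟩ := key q hq hqd
    obtain ⟨g3, g4⟩ := key q' hq'.2 hqd'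
    exact ⟨q, g1, q', g3, fun h => hq'.1 h.symm, g2, g4, hqd, hqd'⟩

/-- one step -/
lemma S_step {α : ℕ → ℝ} (h0 : ∀ p, 0 ≤ α p) {n : ℕ} (hn : 1 ≤ n) (hnN : n ≤ N) (h : NoSq z N n) :
    S z N α (Nat.totient n) ≤ S z N (T z N α) n := by
  have e : S z N (T z N α) n = ∑ p ∈ PR z N, ∑ q ∈ PR z N, if q ∣ n ∧ p ∣ q - 1 then α p else 0 := by
    unfold S T S
    rw [sum_comm]
    apply sum_congr rfl
    intro q _
    by_cases hq : q ∣ n
    · rw [if_pos hq]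
      apply sum_congr rfl
      intro p _
      simp only [hq, true_and]
    · rw [if_neg hq]
      symm
      apply sum_eq_zero
      intro p _
      rw [if_neg (fun h => hq h.1)]
  rw [e]
  apply sum_le_sum
  intro p hp
  by_cases hd : p ∣ Nat.totient n
  · rw [if_pos hd]
    obtain ⟨q, hq, h1, h2⟩ := exists_factor hn hnN hp (h p hp) hd
    refine le_trans (le_of_eq ?_) (single_le_sum (f := fun q => if q ∣ n ∧ p ∣ q - 1 then α p else 0)
      (fun q _ => by split_ifs; exacts [h0 p, le_rfl]) hq)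
    simp only [h1, h2, and_self, if_true]
  · rw [if_neg hd]
    exact sum_nonneg fun q _ => by split_ifs; exacts [h0 p, le_rfl]

lemma S2_step {β : ℕ → ℕ → ℝ} (h0 : ∀ p p', 0 ≤ β p p') {n : ℕ} (hn : 1 ≤ n) (hnN : n ≤ N)
    (h : NoSq z N n) : S2 z N β (Nat.totient n) ≤
      S2 z N (T2 z N β) n + S z N (fun q => S2 z N β (q - 1)) n := by
  have e1 : S2 z N (T2 z N β) n = ∑ p ∈ PR z N, ∑ p' ∈ PR z N, ∑ q ∈ PR z N, ∑ q' ∈ PR z N,
      if (q ≠ q' ∧ q ∣ n ∧ q' ∣ n) ∧ (p ≠ p' ∧ p ∣ q - 1 ∧ p' ∣ q' - 1) then β p p' else 0 := by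
    unfold S2 T2
    have e : ∀ q ∈ PR z N, ∀ q' ∈ PR z N, (if q ≠ q' ∧ q ∣ n ∧ q' ∣ n then
        ∑ p ∈ PR z N, ∑ p' ∈ PR z N, (if p ≠ p' ∧ p ∣ q - 1 ∧ p' ∣ q' - 1 then β p p' else 0) else 0) =
        ∑ p ∈ PR z N, ∑ p' ∈ PR z N, if (q ≠ q' ∧ q ∣ n ∧ q' ∣ n) ∧ (p ≠ p' ∧ p ∣ q - 1 ∧ p' ∣ q' - 1)
          then β p p' else 0 := by
      intro q _ q' _
      by_cases hq : q ≠ q' ∧ q ∣ n ∧ q' ∣ n
      · rw [if_pos hq]
        apply sum_congr rfl; intro p _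
        apply sum_congr rfl; intro p' _
        by_cases hp : p ≠ p' ∧ p ∣ q - 1 ∧ p' ∣ q' - 1
        · rw [if_pos hp, if_pos ⟨hq, hp⟩]
        · rw [if_neg hp, if_neg (fun h => hp h.2)]
      · rw [if_neg hq]
        symm
        apply sum_eq_zero; intro p _
        apply sum_eq_zero; intro p' _
        rw [if_neg (fun h => hq h.1)]
    rw [sum_congr rfl (fun q hq => sum_congr rfl (fun q' hq' => e q hq q' hq'))]
    -- exchange the sums
    calc ∑ q ∈ PR z N, ∑ q' ∈ PR z N, ∑ p ∈ PR z N, ∑ p' ∈ PR z N, _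
        = ∑ q ∈ PR z N, ∑ p ∈ PR z N, ∑ q' ∈ PR z N, ∑ p' ∈ PR z N, _ :=
          sum_congr rfl fun q _ => sum_comm
      _ = ∑ p ∈ PR z N, ∑ q ∈ PR z N, ∑ q' ∈ PR z N, ∑ p' ∈ PR z N, _ := sum_comm
      _ = ∑ p ∈ PR z N, ∑ q ∈ PR z N, ∑ p' ∈ PR z N, ∑ q' ∈ PR z N, _ :=
          sum_congr rfl fun p _ => sum_congr rfl fun q _ => sum_comm
      _ = ∑ p ∈ PR z N, ∑ p' ∈ PR z N, ∑ q ∈ PR z N, ∑ q' ∈ PR z N, _ :=
          sum_congr rfl fun p _ => sum_comm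
  have e2 : S z N (fun q => S2 z N β (q - 1)) n = ∑ p ∈ PR z N, ∑ p' ∈ PR z N, ∑ q ∈ PR z N,
      if q ∣ n ∧ (p ≠ p' ∧ p ∣ q - 1 ∧ p' ∣ q - 1) then β p p' else 0 := by
    unfold S S2
    have e : ∀ q ∈ PR z N, (if q ∣ n then
        ∑ p ∈ PR z N, ∑ p' ∈ PR z N, (if p ≠ p' ∧ p ∣ q - 1 ∧ p' ∣ q - 1 then β p p' else 0) else 0) =
        ∑ p ∈ PR z N, ∑ p' ∈ PR z N, if q ∣ n ∧ (p ≠ p' ∧ p ∣ q - 1 ∧ p' ∣ q - 1)
          then β p p' else 0 := by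
      intro q _
      by_cases hq : q ∣ n
      · rw [if_pos hq]
        apply sum_congr rfl; intro p _
        apply sum_congr rfl; intro p' _
        by_cases hp : p ≠ p' ∧ p ∣ q - 1 ∧ p' ∣ q - 1
        · rw [if_pos hp, if_pos ⟨hq, hp⟩]
        · rw [if_neg hp, if_neg (fun h => hp h.2)]
      · rw [if_neg hq]
        symm
        apply sum_eq_zero; intro p _
        apply sum_eq_zero; intro p' _
        rw [if_neg (fun h => hq h.1)]
    rw [sum_congr rfl (fun q hq => e q hq)]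
    calc ∑ q ∈ PR z N, ∑ p ∈ PR z N, ∑ p' ∈ PR z N, _
        = ∑ p ∈ PR z N, ∑ q ∈ PR z N, ∑ p' ∈ PR z N, _ := sum_comm
      _ = ∑ p ∈ PR z N, ∑ p' ∈ PR z N, ∑ q ∈ PR z N, _ := sum_congr rfl fun p _ => sum_comm
  rw [e1, e2, ← sum_add_distrib]
  unfold S2
  apply sum_le_sum
  intro p hp
  rw [← sum_add_distrib]
  apply sum_le_sum
  intro p' hp'
  have n1 : 0 ≤ ∑ q ∈ PR z N, ∑ q' ∈ PR z N,
      if (q ≠ q' ∧ q ∣ n ∧ q' ∣ n) ∧ (p ≠ p' ∧ p ∣ q - 1 ∧ p' ∣ q' - 1) then β p p' else 0 :=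
    sum_nonneg fun q _ => sum_nonneg fun q' _ => by split_ifs; exacts [h0 p p', le_rfl]
  have n2 : 0 ≤ ∑ q ∈ PR z N, if q ∣ n ∧ (p ≠ p' ∧ p ∣ q - 1 ∧ p' ∣ q - 1) then β p p' else 0 :=
    sum_nonneg fun q _ => by split_ifs; exacts [h0 p p', le_rfl]
  by_cases hd : p ≠ p' ∧ p ∣ Nat.totient n ∧ p' ∣ Nat.totient n
  · rw [if_pos hd]
    obtain ⟨hne, hd1, hd2⟩ := hd
    obtain ⟨q, hq, h1, h2⟩ := exists_factor hn hnN hp (h p hp) hd1
    obtain ⟨q', hq', h1', h2'⟩ := exists_factor hn hnN hp' (h p' hp') hd2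
    by_cases hqq : q = q'
    · subst hqq
      have : β p p' ≤ ∑ q ∈ PR z N, if q ∣ n ∧ (p ≠ p' ∧ p ∣ q - 1 ∧ p' ∣ q - 1) then β p p' else 0 := by
        refine le_trans (le_of_eq ?_) (single_le_sum
          (f := fun q => if q ∣ n ∧ (p ≠ p' ∧ p ∣ q - 1 ∧ p' ∣ q - 1) then β p p' else 0)
          (fun q _ => by split_ifs; exacts [h0 p p', le_rfl]) hq)
        rw [if_pos ⟨h1, hne, h2, h2'⟩]
      linarith
    · have : β p p' ≤ ∑ q ∈ PR z N, ∑ q' ∈ PR z N,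
          if (q ≠ q' ∧ q ∣ n ∧ q' ∣ n) ∧ (p ≠ p' ∧ p ∣ q - 1 ∧ p' ∣ q' - 1) then β p p' else 0 := by
        refine le_trans ?_ (single_le_sum (f := fun q => ∑ q' ∈ PR z N,
          if (q ≠ q' ∧ q ∣ n ∧ q' ∣ n) ∧ (p ≠ p' ∧ p ∣ q - 1 ∧ p' ∣ q' - 1) then β p p' else 0)
          (fun q _ => sum_nonneg fun q' _ => by split_ifs; exacts [h0 p p', le_rfl]) hq)
        refine le_trans (le_of_eq ?_) (single_le_sum (f := fun q' =>
          if (q ≠ q' ∧ q ∣ n ∧ q' ∣ n) ∧ (p ≠ p' ∧ p ∣ q - 1 ∧ p' ∣ q' - 1) then β p p' else 0)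
          (fun q' _ => by split_ifs; exacts [h0 p p', le_rfl]) hq')
        rw [if_pos ⟨⟨hqq, h1, h1'⟩, hne, h2, h2'⟩]
      linarith
  · rw [if_neg hd]
    linarith

end basic

/-! ### averages -/

section avg
variable {z N : ℕ}

lemma mult_le (d : ℕ) (hd : 1 ≤ d) : (((Icc 1 N).filter (fun m => d ∣ m)).card : ℝ) ≤ N / d := by
  have hc : ((Icc 1 N).filter (fun m => d ∣ m)).card = N / d := by
    have := Nat.Ioc_filter_dvd_card_eq_div N d
    rw [← this]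
    rfl
  rw [hc]
  exact Nat.cast_div_le

lemma avg_S {α : ℕ → ℝ} (h0 : ∀ p, 0 ≤ α p) : ∑ m ∈ Icc 1 N, S z N α m ≤ N * H z N α := by
  unfold S H
  rw [sum_comm, mul_sum]
  apply sum_le_sum
  intro p hp
  obtain ⟨⟨h1, h2⟩, hp'⟩ := mem_PR.1 hp
  rw [← sum_filter, sum_const, nsmul_eq_mul]
  have := mult_le (N := N) p hp'.pos
  calc (((Icc 1 N).filter (fun m => p ∣ m)).card : ℝ) * α p ≤ N / p * α p :=
        mul_le_mul_of_nonneg_right this (h0 p)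
    _ = N * (α p / p) := by ring

lemma avg_S2 {β : ℕ → ℕ → ℝ} (h0 : ∀ p p', 0 ≤ β p p') :
    ∑ m ∈ Icc 1 N, S2 z N β m ≤ N * H2 z N β := by
  unfold S2 H2
  rw [sum_comm, mul_sum]
  apply sum_le_sum
  intro p hp
  rw [sum_comm, mul_sum]
  apply sum_le_sum
  intro p' hp'
  obtain ⟨_, hq⟩ := mem_PR.1 hp
  obtain ⟨_, hq'⟩ := mem_PR.1 hp'
  rw [← sum_filter, sum_const, nsmul_eq_mul]
  by_cases hne : p = p'
  · rw [if_neg (fun h => h hne), mul_zero]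
    have : (Icc 1 N).filter (fun m => p ≠ p' ∧ p ∣ m ∧ p' ∣ m) = ∅ := by
      apply filter_eq_empty_iff.2
      intro m _ h
      exact h.1 hne
    rw [this, card_empty, Nat.cast_zero, zero_mul]
  · rw [if_pos hne]
    have h1 : (Icc 1 N).filter (fun m => p ≠ p' ∧ p ∣ m ∧ p' ∣ m) ⊆
        (Icc 1 N).filter (fun m => p * p' ∣ m) := by
      intro m hm
      rw [mem_filter] at hm ⊢
      exact ⟨hm.1, ((Nat.coprime_primes hq hq').2 hne).mul_dvd_of_dvd_of_dvd hm.2.2.1 hm.2.2.2⟩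
    have h2 := mult_le (N := N) (p * p') (Nat.mul_pos hq.pos hq'.pos)
    calc (((Icc 1 N).filter (fun m => p ≠ p' ∧ p ∣ m ∧ p' ∣ m)).card : ℝ) * β p p'
        ≤ N / ((p * p' : ℕ) : ℝ) * β p p' := by
          apply mul_le_mul_of_nonneg_right _ (h0 p p')
          exact le_trans (by exact_mod_cast card_le_card h1) h2
      _ = N * (β p p' / (p * p')) := by push_cast; ring

/-- the sum of `1 / q` over the primes `q ≡ 1 (mod d)` -/
lemma rs (d : ℕ) (hd : 1 ≤ d) :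
    ∑ q ∈ PR z N, (if d ∣ q - 1 then (1 : ℝ) / q else 0) ≤ (1 + Real.log N) / d := by
  have hd0 : (0 : ℝ) < d := by exact_mod_cast hd
  rw [← sum_filter]
  have h1 : ∑ q ∈ (PR z N).filter (fun q => d ∣ q - 1), (1 : ℝ) / q ≤
      ∑ q ∈ (PR z N).filter (fun q => d ∣ q - 1), (1 : ℝ) / d * (1 / (((q - 1) / d : ℕ) : ℝ)) := by
    apply sum_le_sum
    intro q hq
    rw [mem_filter] at hq
    obtain ⟨⟨_, _⟩, hp⟩ := mem_PR.1 hq.1
    have h2 := hp.two_le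
    have h3 : d * ((q - 1) / d) = q - 1 := Nat.mul_div_cancel' hq.2
    have h4 : 1 ≤ (q - 1) / d := by
      rw [Nat.one_le_iff_ne_zero]
      intro h0
      rw [h0, mul_zero] at h3
      omega
    have h5 : (d : ℝ) * (((q - 1) / d : ℕ) : ℝ) ≤ q := by
      have : d * ((q - 1) / d) ≤ q := by omega
      exact_mod_cast this
    have h6 : (0 : ℝ) < (((q - 1) / d : ℕ) : ℝ) := by exact_mod_cast h4
    rw [one_div_mul_one_div]
    apply one_div_le_one_div_of_le (by positivity) h5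
  refine h1.trans ?_
  rw [← mul_sum]
  have h2 : ∑ q ∈ (PR z N).filter (fun q => d ∣ q - 1), (1 / (((q - 1) / d : ℕ) : ℝ)) ≤
      ∑ t ∈ Icc 1 N, 1 / (t : ℝ) := by
    have e : ∑ q ∈ (PR z N).filter (fun q => d ∣ q - 1), (1 / (((q - 1) / d : ℕ) : ℝ)) =
        ∑ t ∈ ((PR z N).filter (fun q => d ∣ q - 1)).image (fun q => (q - 1) / d), 1 / (t : ℝ) := by
      rw [sum_image]
      intro q hq q' hq' he
      rw [mem_coe, mem_filter] at hq hq'
      simp only at he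
      have h3 : d * ((q - 1) / d) = q - 1 := Nat.mul_div_cancel' hq.2
      have h4 : d * ((q' - 1) / d) = q' - 1 := Nat.mul_div_cancel' hq'.2
      have h5 := (mem_PR.1 hq.1).2.two_le
      have h6 := (mem_PR.1 hq'.1).2.two_le
      rw [he] at h3
      omega
    rw [e]
    apply sum_le_sum_of_subset_of_nonneg
    · intro t ht
      rw [mem_image] at ht
      obtain ⟨q, hq, rfl⟩ := ht
      rw [mem_filter] at hq
      obtain ⟨⟨_, h7⟩, hp⟩ := mem_PR.1 hq.1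
      have h2 := hp.two_le
      have h3 : d * ((q - 1) / d) = q - 1 := Nat.mul_div_cancel' hq.2
      have h8 : (q - 1) / d ≤ q - 1 := Nat.div_le_self _ _
      rw [mem_Icc]
      refine ⟨?_, by omega⟩
      rw [Nat.one_le_iff_ne_zero]
      intro h0
      rw [h0, mul_zero] at h3
      omega
    · intro t _ _
      positivity
  have h3 := Pool.Agent.TH935.DSB.harm N
  calc (1 : ℝ) / d * ∑ q ∈ (PR z N).filter (fun q => d ∣ q - 1), (1 / (((q - 1) / d : ℕ) : ℝ))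
      ≤ 1 / d * (1 + Real.log N) := mul_le_mul_of_nonneg_left (h2.trans h3) (by positivity)
    _ = _ := by ring

lemma H_T {α : ℕ → ℝ} (h0 : ∀ p, 0 ≤ α p) : H z N (T z N α) ≤ (1 + Real.log N) * H z N α := by
  unfold H T S
  have e : ∑ q ∈ PR z N, (∑ p ∈ PR z N, if p ∣ q - 1 then α p else 0) / (q : ℝ) =
      ∑ p ∈ PR z N, α p * ∑ q ∈ PR z N, (if p ∣ q - 1 then (1 : ℝ) / q else 0) := by
    simp_rw [sum_div, mul_sum]
    rw [sum_comm]
    apply sum_congr rfl; intro p _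
    apply sum_congr rfl; intro q _
    split_ifs <;> ring
  rw [e, mul_sum]
  apply sum_le_sum
  intro p hp
  have h1 := rs (z := z) (N := N) p (mem_PR.1 hp).2.pos
  calc α p * _ ≤ α p * ((1 + Real.log N) / p) := mul_le_mul_of_nonneg_left h1 (h0 p)
    _ = _ := by ring

lemma H_D {β : ℕ → ℕ → ℝ} (h0 : ∀ p p', 0 ≤ β p p') :
    H z N (fun q => S2 z N β (q - 1)) ≤ (1 + Real.log N) * H2 z N β := by
  unfold H S2 H2
  have e : ∑ q ∈ PR z N, (∑ p ∈ PR z N, ∑ p' ∈ PR z N,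
      if p ≠ p' ∧ p ∣ q - 1 ∧ p' ∣ q - 1 then β p p' else 0) / (q : ℝ) =
      ∑ p ∈ PR z N, ∑ p' ∈ PR z N, β p p' * ∑ q ∈ PR z N,
        (if p ≠ p' ∧ p ∣ q - 1 ∧ p' ∣ q - 1 then (1 : ℝ) / q else 0) := by
    simp_rw [sum_div, mul_sum]
    rw [sum_comm]
    apply sum_congr rfl; intro p _
    rw [sum_comm]
    apply sum_congr rfl; intro p' _
    apply sum_congr rfl; intro q _
    split_ifs <;> ring
  rw [e, mul_sum]
  apply sum_le_sum
  intro p hp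
  rw [mul_sum]
  apply sum_le_sum
  intro p' hp'
  obtain ⟨_, hq⟩ := mem_PR.1 hp
  obtain ⟨_, hq'⟩ := mem_PR.1 hp'
  by_cases hne : p = p'
  · rw [if_neg (fun h => h hne), mul_zero]
    apply le_of_eq
    rw [mul_eq_zero]
    right
    apply sum_eq_zero
    intro q _
    rw [if_neg (fun h => h.1 hne)]
  · rw [if_pos hne]
    have h1 := rs (z := z) (N := N) (p * p') (Nat.mul_pos hq.pos hq'.pos)
    have h2 : ∑ q ∈ PR z N, (if p ≠ p' ∧ p ∣ q - 1 ∧ p' ∣ q - 1 then (1 : ℝ) / q else 0) ≤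
        ∑ q ∈ PR z N, (if p * p' ∣ q - 1 then (1 : ℝ) / q else 0) := by
      apply sum_le_sum
      intro q _
      by_cases h3 : p ≠ p' ∧ p ∣ q - 1 ∧ p' ∣ q - 1
      · rw [if_pos h3, if_pos (((Nat.coprime_primes hq hq').2 hne).mul_dvd_of_dvd_of_dvd h3.2.1 h3.2.2)]
      · rw [if_neg h3]
        split_ifs
        · positivity
        · exact le_rfl
    calc β p p' * _ ≤ β p p' * ((1 + Real.log N) / ((p * p' : ℕ) : ℝ)) :=
          mul_le_mul_of_nonneg_left (h2.trans h1) (h0 p p')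
      _ = _ := by push_cast; ring

lemma H2_T2 {β : ℕ → ℕ → ℝ} (h0 : ∀ p p', 0 ≤ β p p') :
    H2 z N (T2 z N β) ≤ (1 + Real.log N) ^ 2 * H2 z N β := by
  have h1 : H2 z N (T2 z N β) ≤ ∑ q ∈ PR z N, ∑ q' ∈ PR z N, T2 z N β q q' / ((q : ℝ) * q') := by
    unfold H2
    apply sum_le_sum; intro q _
    apply sum_le_sum; intro q' _
    split_ifs
    · exact le_rfl
    · have := T2_nonneg (z := z) (N := N) h0 q q'
      positivity
  refine h1.trans ?_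
  have e : ∑ q ∈ PR z N, ∑ q' ∈ PR z N, T2 z N β q q' / ((q : ℝ) * q') =
      ∑ p ∈ PR z N, ∑ p' ∈ PR z N, (if p ≠ p' then β p p' else 0) *
        ((∑ q ∈ PR z N, (if p ∣ q - 1 then (1 : ℝ) / q else 0)) *
          (∑ q' ∈ PR z N, (if p' ∣ q' - 1 then (1 : ℝ) / q' else 0))) := by
    unfold T2
    simp_rw [sum_mul_sum, sum_div, mul_sum]
    calc ∑ q ∈ PR z N, ∑ q' ∈ PR z N, ∑ p ∈ PR z N, ∑ p' ∈ PR z N, _
        = ∑ q ∈ PR z N, ∑ p ∈ PR z N, ∑ q' ∈ PR z N, ∑ p' ∈ PR z N, _ :=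
          sum_congr rfl fun q _ => sum_comm
      _ = ∑ p ∈ PR z N, ∑ q ∈ PR z N, ∑ q' ∈ PR z N, ∑ p' ∈ PR z N, _ := sum_comm
      _ = ∑ p ∈ PR z N, ∑ q ∈ PR z N, ∑ p' ∈ PR z N, ∑ q' ∈ PR z N, _ :=
          sum_congr rfl fun p _ => sum_congr rfl fun q _ => sum_comm
      _ = ∑ p ∈ PR z N, ∑ p' ∈ PR z N, ∑ q ∈ PR z N, ∑ q' ∈ PR z N, _ :=
          sum_congr rfl fun p _ => sum_comm
      _ = _ := by
          apply sum_congr rfl; intro p _
          apply sum_congr rfl; intro p' _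
          apply sum_congr rfl; intro q _
          apply sum_congr rfl; intro q' _
          by_cases a1 : p ≠ p' <;> by_cases a2 : p ∣ q - 1 <;> by_cases a3 : p' ∣ q' - 1 <;>
            simp [a1, a2, a3] <;> ring
  rw [e]
  unfold H2
  rw [mul_sum]
  apply sum_le_sum; intro p hp
  rw [mul_sum]
  apply sum_le_sum; intro p' hp'
  have h2 := rs (z := z) (N := N) p (mem_PR.1 hp).2.pos
  have h3 := rs (z := z) (N := N) p' (mem_PR.1 hp').2.pos
  have g2 : 0 ≤ ∑ q ∈ PR z N, (if p ∣ q - 1 then (1 : ℝ) / q else 0) :=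
    sum_nonneg fun q _ => by split_ifs; exacts [by positivity, le_rfl]
  have g3 : 0 ≤ ∑ q ∈ PR z N, (if p' ∣ q - 1 then (1 : ℝ) / q else 0) :=
    sum_nonneg fun q _ => by split_ifs; exacts [by positivity, le_rfl]
  have hp0 : (0 : ℝ) < p := by exact_mod_cast (mem_PR.1 hp).2.pos
  have hp0' : (0 : ℝ) < p' := by exact_mod_cast (mem_PR.1 hp').2.pos
  have hl : 0 ≤ Real.log (N : ℝ) := Real.log_natCast_nonneg _
  split_ifs with hne
  · calc β p p' * _ ≤ β p p' * (((1 + Real.log N) / p) * ((1 + Real.log N) / p')) := by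
          apply mul_le_mul_of_nonneg_left _ (h0 p p')
          exact mul_le_mul h2 h3 g3 (by positivity)
      _ = _ := by field_simp
  · rw [zero_mul, mul_zero]

end avg

end Pool.Agent.N826.IT
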