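import Pool.Agent.N826.IT.C

set_option autoImplicit false

/-!
Iterated totients, part C2: for almost all `m ≤ N` no iterate of the totient is divisible by the square of a prime
`> z`.
-/

namespace Pool.Agent.N826.IT

open Finset Classical

/-- transition of a pair (weights of primes, weights of pairs of primes) -/
noncomputable def V (z N : ℕ) (x : (ℕ → ℝ) × (ℕ → ℕ → ℝ)) : (ℕ → ℝ) × (ℕ → ℕ → ℝ) :=
  (fun q => T z N x.1 q + S2 z N x.2 (q - 1), T2 z N x.2)

noncomputable def G (z N : ℕ) (x : (ℕ → ℝ) × (ℕ → ℕ → ℝ)) (n : ℕ) : ℝ := S z N x.1 n + S2 z N x.2 n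

noncomputable def X (z N : ℕ) (x : (ℕ → ℝ) × (ℕ → ℕ → ℝ)) : ℝ := H z N x.1 + H2 z N x.2

def Nn (x : (ℕ → ℝ) × (ℕ → ℕ → ℝ)) : Prop := (∀ p, 0 ≤ x.1 p) ∧ ∀ p p', 0 ≤ x.2 p p'

/-- the starting pair -/
noncomputable def x0 (z N : ℕ) : (ℕ → ℝ) × (ℕ → ℕ → ℝ) :=
  (fun q => ∑ p ∈ PR z N, if p ^ 2 ∣ q - 1 then 1 else 0,
    fun q q' => ∑ p ∈ PR z N, if p ∣ q - 1 ∧ p ∣ q' - 1 then 1 else 0)

section
variable {z N : ℕ}

lemma V_nn {x : (ℕ → ℝ) × (ℕ → ℕ → ℝ)} (h : Nn x) : Nn (V z N x) :=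
  ⟨fun _ => add_nonneg (T_nonneg h.1 _) (S2_nonneg h.2 _), fun _ _ => T2_nonneg h.2 _ _⟩

lemma Viter_nn {x : (ℕ → ℝ) × (ℕ → ℕ → ℝ)} (h : Nn x) (j : ℕ) : Nn ((V z N)^[j] x) := by
  induction j with
  | zero => exact h
  | succ j ih => rw [Function.iterate_succ_apply']; exact V_nn ih

lemma x0_nn : Nn (x0 z N) := by
  refine ⟨fun q => ?_, fun q q' => ?_⟩
  · change (0 : ℝ) ≤ ∑ p ∈ PR z N, if p ^ 2 ∣ q - 1 then 1 else 0
    refine sum_nonneg fun p _ => ?_
    split_ifs <;> norm_num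
  · change (0 : ℝ) ≤ ∑ p ∈ PR z N, if p ∣ q - 1 ∧ p ∣ q' - 1 then 1 else 0
    refine sum_nonneg fun p _ => ?_
    split_ifs <;> norm_num

lemma S_add (α β : ℕ → ℝ) (n : ℕ) : S z N (fun q => α q + β q) n = S z N α n + S z N β n := by
  unfold S
  rw [← sum_add_distrib]
  apply sum_congr rfl; intro p _
  split_ifs <;> simp

lemma H_add (α β : ℕ → ℝ) : H z N (fun q => α q + β q) = H z N α + H z N β := by
  unfold H
  rw [← sum_add_distrib]
  apply sum_congr rfl; intro p _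
  ring

lemma H_nonneg {α : ℕ → ℝ} (h : ∀ p, 0 ≤ α p) : 0 ≤ H z N α :=
  sum_nonneg fun p _ => div_nonneg (h p) (Nat.cast_nonneg _)

lemma H2_nonneg {β : ℕ → ℕ → ℝ} (h : ∀ p p', 0 ≤ β p p') : 0 ≤ H2 z N β :=
  sum_nonneg fun p _ => sum_nonneg fun p' _ => by
    split_ifs
    · exact div_nonneg (h p p') (by positivity)
    · exact le_rfl

lemma X_nonneg {x : (ℕ → ℝ) × (ℕ → ℕ → ℝ)} (h : Nn x) : 0 ≤ X z N x :=
  add_nonneg (H_nonneg h.1) (H2_nonneg h.2)

lemma G_nonneg {x : (ℕ → ℝ) × (ℕ → ℕ → ℝ)} (h : Nn x) (n : ℕ) : 0 ≤ G z N x n :=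
  add_nonneg (S_nonneg h.1 _) (S2_nonneg h.2 _)

lemma G_step {x : (ℕ → ℝ) × (ℕ → ℕ → ℝ)} (h : Nn x) {n : ℕ} (hn : 1 ≤ n) (hnN : n ≤ N)
    (hs : NoSq z N n) : G z N x (Nat.totient n) ≤ G z N (V z N x) n := by
  have h1 := S_step (z := z) h.1 hn hnN hs
  have h2 := S2_step (z := z) h.2 hn hnN hs
  unfold G V
  simp only
  rw [S_add]
  linarith

lemma G_iter {x : (ℕ → ℝ) × (ℕ → ℕ → ℝ)} (h : Nn x) (j : ℕ) : ∀ {m : ℕ}, 1 ≤ m → m ≤ N →
    (∀ l < j, NoSq z N (Nat.totient^[l] m)) →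
    G z N x (Nat.totient^[j] m) ≤ G z N ((V z N)^[j] x) m := by
  induction j with
  | zero => intro m _ _ _; exact le_rfl
  | succ j ih =>
    intro m hm hmN hs
    rw [Function.iterate_succ_apply, Function.iterate_succ_apply']
    refine (ih (Nat.totient_pos.2 hm) ((Nat.totient_le m).trans hmN) ?_).trans
      (G_step (Viter_nn h j) hm hmN (hs 0 (by omega)))
    intro l hl
    have := hs (l + 1) (by omega)
    rwa [Function.iterate_succ_apply] at this

lemma G_start {n : ℕ} (hn : 1 ≤ n) (hnN : n ≤ N) (hs : NoSq z N n)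
    (hns : ¬ NoSq z N (Nat.totient n)) : 1 ≤ G z N (x0 z N) n := by
  unfold NoSq at hns
  push Not at hns
  obtain ⟨p, hp, hd⟩ := hns
  have nn := x0_nn (z := z) (N := N)
  have a1 := S_nonneg (z := z) (N := N) nn.1 n
  have a2 := S2_nonneg (z := z) (N := N) nn.2 n
  rcases exists_square hn hnN hp (hs p hp) hd with ⟨q, hq, h1, h2⟩ | ⟨q, hq, q', hq', hne, h1, h1', h2, h2'⟩
  · have : 1 ≤ S z N (x0 z N).1 n := by
      unfold S
      refine le_trans ?_ (single_le_sum (f := fun q => if q ∣ n then (x0 z N).1 q else 0)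
        (fun q _ => by split_ifs; exacts [nn.1 q, le_rfl]) hq)
      simp only [h1, if_true]
      unfold x0
      refine le_trans ?_ (single_le_sum (f := fun p => if p ^ 2 ∣ q - 1 then (1 : ℝ) else 0)
        (fun q _ => by split_ifs <;> norm_num) hp)
      simp [h2]
    unfold G
    linarith
  · have : 1 ≤ S2 z N (x0 z N).2 n := by
      unfold S2
      refine le_trans ?_ (single_le_sum (f := fun q => ∑ q' ∈ PR z N,
          if q ≠ q' ∧ q ∣ n ∧ q' ∣ n then (x0 z N).2 q q' else 0)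
        (fun q _ => sum_nonneg fun q' _ => by split_ifs; exacts [nn.2 q q', le_rfl]) hq)
      refine le_trans ?_ (single_le_sum (f := fun q' =>
          if q ≠ q' ∧ q ∣ n ∧ q' ∣ n then (x0 z N).2 q q' else 0)
        (fun q' _ => by split_ifs; exacts [nn.2 q q', le_rfl]) hq')
      rw [if_pos ⟨hne, h1, h1'⟩]
      unfold x0
      refine le_trans ?_ (single_le_sum (f := fun p => if p ∣ q - 1 ∧ p ∣ q' - 1 then (1 : ℝ) else 0)
        (fun q _ => by split_ifs <;> norm_num) hp)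
      simp [h2, h2']
    unfold G
    linarith

lemma X_step {x : (ℕ → ℝ) × (ℕ → ℕ → ℝ)} (h : Nn x) :
    X z N (V z N x) ≤ (2 * (1 + Real.log N) ^ 2) * X z N x := by
  have hl : 0 ≤ Real.log (N : ℝ) := Real.log_natCast_nonneg _
  have h1 := H_T (z := z) (N := N) h.1
  have h2 := H_D (z := z) (N := N) h.2
  have h3 := H2_T2 (z := z) (N := N) h.2
  have g1 := H_nonneg (z := z) (N := N) h.1
  have g2 := H2_nonneg (z := z) (N := N) h.2
  unfold X V
  simp only
  rw [H_add]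
  have e1 : (1 + Real.log N) * H z N x.1 ≤ (1 + Real.log N) ^ 2 * H z N x.1 :=
    mul_le_mul_of_nonneg_right (by nlinarith) g1
  have e2 : (1 + Real.log N) * H2 z N x.2 ≤ (1 + Real.log N) ^ 2 * H2 z N x.2 :=
    mul_le_mul_of_nonneg_right (by nlinarith) g2
  have e3 : 0 ≤ (1 + Real.log N) ^ 2 * H z N x.1 := by positivity
  have e5 : H z N (fun q => S2 z N x.2 (q - 1)) ≤ (1 + Real.log N) ^ 2 * H2 z N x.2 := h2.trans e2
  nlinarith

lemma X_iter {x : (ℕ → ℝ) × (ℕ → ℕ → ℝ)} (h : Nn x) (j : ℕ) :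
    X z N ((V z N)^[j] x) ≤ (2 * (1 + Real.log N) ^ 2) ^ j * X z N x := by
  have hl : 0 ≤ Real.log (N : ℝ) := Real.log_natCast_nonneg _
  induction j with
  | zero => simp
  | succ j ih =>
    rw [Function.iterate_succ_apply']
    calc _ ≤ (2 * (1 + Real.log N) ^ 2) * X z N ((V z N)^[j] x) := X_step (Viter_nn h j)
      _ ≤ (2 * (1 + Real.log N) ^ 2) * ((2 * (1 + Real.log N) ^ 2) ^ j * X z N x) :=
          mul_le_mul_of_nonneg_left ih (by positivity)
      _ = _ := by ring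

lemma inv_sq (hz : 1 ≤ z) : ∑ p ∈ PR z N, (1 : ℝ) / (p : ℝ) ^ 2 ≤ 1 / z := by
  by_cases h : z ≤ N
  · calc ∑ p ∈ PR z N, (1 : ℝ) / (p : ℝ) ^ 2 ≤ ∑ p ∈ Ioc z N, (1 : ℝ) / (p : ℝ) ^ 2 :=
          sum_le_sum_of_subset_of_nonneg (filter_subset _ _) (fun _ _ _ => by positivity)
      _ = ∑ p ∈ Ioc z N, ((p : ℝ) ^ 2)⁻¹ := by simp only [one_div]
      _ ≤ (z : ℝ)⁻¹ - (N : ℝ)⁻¹ := sum_Ioc_inv_sq_le_sub (by omega) h
      _ ≤ 1 / z := by
          have : (0 : ℝ) ≤ (N : ℝ)⁻¹ := by positivity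
          rw [one_div]; linarith
  · have : PR z N = ∅ := by
      unfold PR
      rw [Ioc_eq_empty (by omega), filter_empty]
    rw [this, sum_empty]
    positivity

lemma X_x0 (hz : 1 ≤ z) : X z N (x0 z N) ≤ 2 * (1 + Real.log N) ^ 2 / z := by
  have hl : 0 ≤ Real.log (N : ℝ) := Real.log_natCast_nonneg _
  have i1 := inv_sq (z := z) (N := N) hz
  have z0 : (0 : ℝ) < z := by exact_mod_cast hz
  have h1 : H z N (x0 z N).1 ≤ (1 + Real.log N) ^ 2 / z := by
    unfold H x0
    simp only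
    have e : ∑ q ∈ PR z N, (∑ p ∈ PR z N, if p ^ 2 ∣ q - 1 then (1 : ℝ) else 0) / (q : ℝ) =
        ∑ p ∈ PR z N, ∑ q ∈ PR z N, (if p ^ 2 ∣ q - 1 then (1 : ℝ) / q else 0) := by
      simp_rw [sum_div]
      rw [sum_comm]
      apply sum_congr rfl; intro p _
      apply sum_congr rfl; intro q _
      split_ifs <;> simp
    rw [e]
    calc _ ≤ ∑ p ∈ PR z N, (1 + Real.log N) * (1 / (p : ℝ) ^ 2) := by
          apply sum_le_sum; intro p hp
          have h := rs (z := z) (N := N) (p ^ 2) (pow_pos (mem_PR.1 hp).2.pos 2)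
          refine h.trans (le_of_eq ?_)
          push_cast; ring
      _ = (1 + Real.log N) * ∑ p ∈ PR z N, (1 / (p : ℝ) ^ 2) := by rw [mul_sum]
      _ ≤ (1 + Real.log N) * (1 / z) := mul_le_mul_of_nonneg_left i1 (by positivity)
      _ ≤ (1 + Real.log N) ^ 2 * (1 / z) := mul_le_mul_of_nonneg_right (by nlinarith) (by positivity)
      _ = _ := by ring
  have h2 : H2 z N (x0 z N).2 ≤ (1 + Real.log N) ^ 2 / z := by
    unfold H2 x0
    simp only
    have e0 : ∑ q ∈ PR z N, ∑ q' ∈ PR z N, (if q ≠ q' then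
        (∑ p ∈ PR z N, if p ∣ q - 1 ∧ p ∣ q' - 1 then (1 : ℝ) else 0) / ((q : ℝ) * q') else 0) ≤
        ∑ q ∈ PR z N, ∑ q' ∈ PR z N,
        (∑ p ∈ PR z N, if p ∣ q - 1 ∧ p ∣ q' - 1 then (1 : ℝ) else 0) / ((q : ℝ) * q') := by
      apply sum_le_sum; intro q _
      apply sum_le_sum; intro q' _
      split_ifs
      · exact le_rfl
      · apply div_nonneg _ (by positivity)
        exact sum_nonneg fun _ _ => by split_ifs <;> norm_num
    have e : ∑ q ∈ PR z N, ∑ q' ∈ PR z N,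
        (∑ p ∈ PR z N, if p ∣ q - 1 ∧ p ∣ q' - 1 then (1 : ℝ) else 0) / ((q : ℝ) * q') =
        ∑ p ∈ PR z N, (∑ q ∈ PR z N, (if p ∣ q - 1 then (1 : ℝ) / q else 0)) *
          (∑ q' ∈ PR z N, (if p ∣ q' - 1 then (1 : ℝ) / q' else 0)) := by
      simp_rw [sum_mul_sum, sum_div]
      calc ∑ q ∈ PR z N, ∑ q' ∈ PR z N, ∑ p ∈ PR z N, _
          = ∑ q ∈ PR z N, ∑ p ∈ PR z N, ∑ q' ∈ PR z N, _ := sum_congr rfl fun q _ => sum_comm
        _ = ∑ p ∈ PR z N, ∑ q ∈ PR z N, ∑ q' ∈ PR z N, _ := sum_comm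
        _ = _ := by
          apply sum_congr rfl; intro p _
          apply sum_congr rfl; intro q _
          apply sum_congr rfl; intro q' _
          by_cases a2 : p ∣ q - 1
          · by_cases a3 : p ∣ q' - 1
            · simp only [a2, a3, and_self, if_true]
              rw [one_div_mul_one_div]
            · simp [a3]
          · simp [a2]
    refine e0.trans ?_
    rw [e]
    calc _ ≤ ∑ p ∈ PR z N, (1 + Real.log N) ^ 2 * (1 / (p : ℝ) ^ 2) := by
          apply sum_le_sum; intro p hp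
          have h := rs (z := z) (N := N) p (mem_PR.1 hp).2.pos
          have g : 0 ≤ ∑ q ∈ PR z N, (if p ∣ q - 1 then (1 : ℝ) / q else 0) :=
            sum_nonneg fun q _ => by split_ifs; exacts [by positivity, le_rfl]
          have hp0 : (0 : ℝ) < p := by exact_mod_cast (mem_PR.1 hp).2.pos
          calc _ ≤ ((1 + Real.log N) / p) * ((1 + Real.log N) / p) := mul_le_mul h h g (by positivity)
            _ = _ := by field_simp
      _ = (1 + Real.log N) ^ 2 * ∑ p ∈ PR z N, (1 / (p : ℝ) ^ 2) := by rw [mul_sum]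
      _ ≤ (1 + Real.log N) ^ 2 * (1 / z) := mul_le_mul_of_nonneg_left i1 (by positivity)
      _ = _ := by ring
  unfold X
  calc _ ≤ (1 + Real.log N) ^ 2 / z + (1 + Real.log N) ^ 2 / z := add_le_add h1 h2
    _ = _ := by ring

/-- almost no `m` has an iterate divisible by the square of a large prime -/
theorem no_squares (hz : 1 ≤ z) (k : ℕ) :
    (((Icc 1 N).filter (fun m => ∃ j ≤ k, ¬ NoSq z N (Nat.totient^[j] m))).card : ℝ) ≤
      (k + 1) * (2 * (1 + Real.log N) ^ 2) ^ k * (N / z) := by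
  have hl : 0 ≤ Real.log (N : ℝ) := Real.log_natCast_nonneg _
  have z0 : (0 : ℝ) < z := by exact_mod_cast hz
  set Q : ℝ := 2 * (1 + Real.log N) ^ 2 with hQ
  have hQ1 : 1 ≤ Q := by rw [hQ]; nlinarith
  have nn := x0_nn (z := z) (N := N)
  have key : ∀ m ∈ Icc 1 N, (if (∃ j ≤ k, ¬ NoSq z N (Nat.totient^[j] m)) then (1 : ℝ) else 0) ≤
      (∑ p ∈ PR z N, if p ^ 2 ∣ m then (1 : ℝ) else 0) +
        ∑ j ∈ range k, G z N ((V z N)^[j] (x0 z N)) m := by
    intro m hm
    rw [mem_Icc] at hm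
    have n1 : 0 ≤ ∑ p ∈ PR z N, if p ^ 2 ∣ m then (1 : ℝ) else 0 :=
      sum_nonneg fun _ _ => by split_ifs <;> norm_num
    have n2 : 0 ≤ ∑ j ∈ range k, G z N ((V z N)^[j] (x0 z N)) m :=
      sum_nonneg fun j _ => G_nonneg (Viter_nn nn j) m
    by_cases hex : ∃ j ≤ k, ¬ NoSq z N (Nat.totient^[j] m)
    · rw [if_pos hex]
      have hex' : ∃ j, ¬ NoSq z N (Nat.totient^[j] m) := ⟨hex.choose, hex.choose_spec.2⟩
      obtain ⟨j1, hj1, hj1'⟩ := hex
      have hf := Nat.find_spec hex'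
      have hmin : ∀ l < Nat.find hex', NoSq z N (Nat.totient^[l] m) := by
        intro l hl
        have := Nat.find_min hex' hl
        simpa using this
      have hle : Nat.find hex' ≤ k := (Nat.find_min' hex' hj1').trans hj1
      rcases hj : Nat.find hex' with _ | j
      · rw [hj] at hf
        simp only [Function.iterate_zero, id] at hf
        unfold NoSq at hf
        push Not at hf
        obtain ⟨p, hp, hd⟩ := hf
        have : (1 : ℝ) ≤ ∑ p ∈ PR z N, if p ^ 2 ∣ m then (1 : ℝ) else 0 := by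
          refine le_trans ?_ (single_le_sum (f := fun p => if p ^ 2 ∣ m then (1 : ℝ) else 0)
            (fun q _ => by split_ifs <;> norm_num) hp)
          simp [hd]
        linarith
      · rw [hj] at hf hmin hle
        have hpos : ∀ l, 1 ≤ Nat.totient^[l] m ∧ Nat.totient^[l] m ≤ N := by
          intro l
          induction l with
          | zero => exact hm
          | succ l ih =>
            rw [Function.iterate_succ_apply']
            exact ⟨Nat.totient_pos.2 ih.1, (Nat.totient_le _).trans ih.2⟩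
        have h1 := G_start (z := z) (hpos j).1 (hpos j).2 (hmin j (by omega))
          (by rwa [Function.iterate_succ_apply'] at hf)
        have h2 := G_iter (z := z) nn j hm.1 hm.2 (fun l hl => hmin l (by omega))
        have h3 : G z N ((V z N)^[j] (x0 z N)) m ≤ ∑ j ∈ range k, G z N ((V z N)^[j] (x0 z N)) m :=
          single_le_sum (f := fun j => G z N ((V z N)^[j] (x0 z N)) m)
            (fun j _ => G_nonneg (Viter_nn nn j) m) (mem_range.2 (by omega))
        linarith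
    · rw [if_neg hex]
      linarith
  have hcard : (((Icc 1 N).filter (fun m => ∃ j ≤ k, ¬ NoSq z N (Nat.totient^[j] m))).card : ℝ) =
      ∑ m ∈ Icc 1 N, (if (∃ j ≤ k, ¬ NoSq z N (Nat.totient^[j] m)) then (1 : ℝ) else 0) := by
    rw [← sum_filter, sum_const, nsmul_eq_mul, mul_one]
  rw [hcard]
  refine (sum_le_sum key).trans ?_
  rw [sum_add_distrib]
  have b1 : ∑ m ∈ Icc 1 N, ∑ p ∈ PR z N, (if p ^ 2 ∣ m then (1 : ℝ) else 0) ≤ (N : ℝ) / z := by
    rw [sum_comm]
    calc _ ≤ ∑ p ∈ PR z N, (N : ℝ) * (1 / (p : ℝ) ^ 2) := by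
          apply sum_le_sum; intro p hp
          rw [← sum_filter, sum_const, nsmul_eq_mul, mul_one]
          have := mult_le (N := N) (p ^ 2) (pow_pos (mem_PR.1 hp).2.pos 2)
          refine this.trans (le_of_eq ?_)
          push_cast; ring
      _ = (N : ℝ) * ∑ p ∈ PR z N, (1 / (p : ℝ) ^ 2) := by rw [mul_sum]
      _ ≤ (N : ℝ) * (1 / z) := mul_le_mul_of_nonneg_left (inv_sq hz) (Nat.cast_nonneg _)
      _ = (N : ℝ) / z := by ring
  have b2 : ∑ m ∈ Icc 1 N, ∑ j ∈ range k, G z N ((V z N)^[j] (x0 z N)) m ≤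
      k * (Q ^ k * (N / z)) := by
    rw [sum_comm]
    calc _ ≤ ∑ j ∈ range k, Q ^ k * (N / z) := by
          apply sum_le_sum; intro j hj
          rw [mem_range] at hj
          have nj : Nn ((V z N)^[j] (x0 z N)) := Viter_nn nn j
          have h1 := avg_S (z := z) (N := N) nj.1
          have h2 := avg_S2 (z := z) (N := N) nj.2
          have h3 := X_iter (z := z) (N := N) nn j
          have h4 := X_x0 (z := z) (N := N) hz
          have h5 : ∑ m ∈ Icc 1 N, G z N ((V z N)^[j] (x0 z N)) m ≤ N * X z N ((V z N)^[j] (x0 z N)) := by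
            unfold G X
            rw [sum_add_distrib, mul_add]
            exact add_le_add h1 h2
          have hN : (0 : ℝ) ≤ N := Nat.cast_nonneg _
          calc _ ≤ N * X z N ((V z N)^[j] (x0 z N)) := h5
            _ ≤ N * (Q ^ j * (Q / z)) := by
                apply mul_le_mul_of_nonneg_left _ hN
                refine h3.trans ?_
                apply mul_le_mul_of_nonneg_left _ (by positivity)
                exact h4
            _ = Q ^ (j + 1) * (N / z) := by ring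
            _ ≤ Q ^ k * (N / z) := by
                apply mul_le_mul_of_nonneg_right _ (by positivity)
                exact pow_le_pow_right₀ hQ1 (by omega)
      _ = _ := by rw [sum_const, card_range, nsmul_eq_mul]
  have b3 : (N : ℝ) / z ≤ Q ^ k * (N / z) := by
    have : 1 ≤ Q ^ k := one_le_pow₀ hQ1
    have : (0 : ℝ) ≤ (N : ℝ) / z := by positivity
    nlinarith
  calc _ ≤ Q ^ k * (N / z) + k * (Q ^ k * (N / z)) := add_le_add (b1.trans b3) b2
    _ = _ := by ring

end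

end Pool.Agent.N826.IT
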