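import Pool.Agent.N826.IT.C
import Pool.Agent.N907.EG.NuB
import Pool.Agent.N907.EG.Cov
import Pool.Agent.N907.EG.TypeII
import Pool.Agent.N907.EG.Cof

set_option autoImplicit false

/-!
Iterated totients, part D: the harmonic measure of the prime factors of shifted primes is dominated by the harmonic
measure of the primes.
-/

namespace Pool.Agent.N826.IT

open Finset Classical
open Pool.Agent.N907.EG (blk iJ S_TypeII S_Cof)

lemma mem_blk {J p : ℕ} : p ∈ blk J ↔ (2 ^ (J - 1) < p ∧ p ≤ 2 ^ J) ∧ p.Prime := by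
  simp [blk, Finset.mem_filter, Finset.mem_Ioc]

lemma dyad (g : ℕ → ℝ) (e : ℕ) : ∀ J : ℕ, e ≤ J → ∑ D ∈ Ioc (2 ^ e) (2 ^ J), g D =
    ∑ i ∈ Ico e J, ∑ D ∈ Ioc (2 ^ i) (2 ^ (i + 1)), g D := by
  intro J hJ
  induction J, hJ using Nat.le_induction with
  | base => simp
  | succ n hn ih =>
    rw [Finset.sum_Ico_succ_top hn, ← ih]
    rw [Finset.sum_Ioc_consecutive g (Nat.pow_le_pow_right (by norm_num) hn)
      (Nat.pow_le_pow_right (by norm_num) (Nat.le_succ n))]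

/-- domination in one dyadic block -/
theorem blk_dom : ∃ C : ℝ, 0 < C ∧ ∃ J1 : ℕ, ∀ J : ℕ, J1 ≤ J → ∀ e : ℕ, e ≤ J → ∀ α : ℕ → ℝ,
    (∀ D, 0 ≤ α D) → (∀ D, α D ≤ 1) → (∀ D, α D ≠ 0 → Pool.Agent.N907.EG.Rough (iJ J) D) →
    ∑ q ∈ blk J, ∑ D ∈ Ioc (2 ^ e) (2 ^ J), (if D ∣ q - 1 then α D else 0) ≤
      C * (2 ^ J / J) * ∑ D ∈ Ioc (2 ^ e) (2 ^ J), α D / D + C * 2 ^ J / (J : ℝ) ^ (3 / 2 : ℝ) := by
  obtain ⟨C1, hC1, B, J1, h1⟩ := Pool.Agent.N907.EG.s_typeII Pool.Agent.N907.EG.NuB.nuB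
    Pool.Agent.N907.EG.s_cov
  obtain ⟨C2, hC2, J2, h2⟩ := Pool.Agent.N907.EG.s_cof B
  refine ⟨2 * C1 + C2 + 1, by positivity, max (max J1 J2) 1, fun J hJ e he α a0 a1 aR => ?_⟩
  have hJ1 : J1 ≤ J := le_trans (le_trans (le_max_left _ _) (le_max_left _ _)) hJ
  have hJ2 : J2 ≤ J := le_trans (le_trans (le_max_right _ _) (le_max_left _ _)) hJ
  have hJ3 : 1 ≤ J := le_trans (le_max_right _ _) hJ
  have hJr : (1 : ℝ) ≤ J := by exact_mod_cast hJ3
  -- the number of multipliers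
  set cnt : ℕ → ℕ → ℕ := fun M D => ((Icc 1 M).filter
    (fun m => (D * m + 1).Prime ∧ 2 ^ (J - 1) < D * m + 1 ∧ D * m + 1 ≤ 2 ^ J)).card with hcnt
  have hle : ∀ i, i < J → ∀ D ∈ Ioc (2 ^ i) (2 ^ (i + 1)),
      (((blk J).filter (fun q => D ∣ q - 1)).card) ≤ cnt (2 ^ (J - i)) D := by
    intro i hi D hD
    rw [mem_Ioc] at hD
    have hD0 : 0 < D := by omega
    rw [hcnt]
    apply card_le_card_of_injOn (fun q => (q - 1) / D)
    · intro q hq
      rw [mem_coe, mem_filter, mem_blk] at hq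
      obtain ⟨⟨⟨q1, q2⟩, q3⟩, q4⟩ := hq
      have h3 : D * ((q - 1) / D) = q - 1 := Nat.mul_div_cancel' q4
      have hq2 := q3.two_le
      have h4 : 1 ≤ (q - 1) / D := by
        rw [Nat.one_le_iff_ne_zero]
        intro h0
        rw [h0, mul_zero] at h3
        omega
      simp only
      rw [mem_coe, mem_filter, mem_Icc]
      have e1 : D * ((q - 1) / D) + 1 = q := by omega
      rw [e1]
      refine ⟨⟨h4, ?_⟩, q3, q1, q2⟩
      by_contra hlt
      push Not at hlt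
      have : 2 ^ i * 2 ^ (J - i) < D * ((q - 1) / D) :=
        Nat.mul_lt_mul'' hD.1 hlt
      rw [← pow_add, Nat.add_sub_cancel' hi.le] at this
      omega
    · intro q hq q' hq' he
      rw [mem_coe, mem_filter, mem_blk] at hq hq'
      simp only at he
      have h3 : D * ((q - 1) / D) = q - 1 := Nat.mul_div_cancel' hq.2
      have h4 : D * ((q' - 1) / D) = q' - 1 := Nat.mul_div_cancel' hq'.2
      have h5 := hq.1.2.two_le
      have h6 := hq'.1.2.two_le
      rw [he] at h3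
      omega
  -- exchange
  have hex : ∑ q ∈ blk J, ∑ D ∈ Ioc (2 ^ e) (2 ^ J), (if D ∣ q - 1 then α D else 0) =
      ∑ D ∈ Ioc (2 ^ e) (2 ^ J), α D * (((blk J).filter (fun q => D ∣ q - 1)).card : ℝ) := by
    rw [sum_comm]
    apply sum_congr rfl; intro D _
    rw [← sum_filter, sum_const, nsmul_eq_mul, mul_comm]
  rw [hex, dyad _ e J he]
  set g : ℕ → ℝ := fun D => if Pool.Agent.N907.EG.Rough (iJ J) D then (cnt (J ^ B) D : ℝ) else 0 with hg
  have hg0 : ∀ D, 0 ≤ g D := fun D => by rw [hg]; simp only; split_ifs <;> positivity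
  -- each block
  have hblock : ∀ i ∈ Ico e J, ∑ D ∈ Ioc (2 ^ i) (2 ^ (i + 1)),
      α D * (((blk J).filter (fun q => D ∣ q - 1)).card : ℝ) ≤
      (2 * C1 * (2 ^ J / J) * ∑ D ∈ Ioc (2 ^ i) (2 ^ (i + 1)), α D / D + (2 : ℝ) ^ J / (J : ℝ) ^ 4) +
        ∑ D ∈ Ioc (2 ^ i) (2 ^ (i + 1)), g D := by
    intro i hi
    rw [mem_Ico] at hi
    have n1 : 0 ≤ 2 * C1 * (2 ^ J / J) * ∑ D ∈ Ioc (2 ^ i) (2 ^ (i + 1)), α D / D := by
      apply mul_nonneg (by positivity)
      exact sum_nonneg fun D _ => div_nonneg (a0 D) (Nat.cast_nonneg _)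
    have n2 : 0 ≤ (2 : ℝ) ^ J / (J : ℝ) ^ 4 := by positivity
    have n3 : 0 ≤ ∑ D ∈ Ioc (2 ^ i) (2 ^ (i + 1)), g D := sum_nonneg fun D _ => hg0 D
    by_cases hB : J ^ B ≤ 2 ^ (J - i)
    · have h3 := h1 J hJ1 i hi.2 hB α a0 a1 aR
      have h4 : ∑ D ∈ Ioc (2 ^ i) (2 ^ (i + 1)),
          α D * (((blk J).filter (fun q => D ∣ q - 1)).card : ℝ) ≤
          ∑ D ∈ Ioc (2 ^ i) (2 ^ (i + 1)), α D * (((Icc 1 (2 ^ (J - i))).filter
            (fun m => (D * m + 1).Prime ∧ 2 ^ (J - 1) < D * m + 1)).card : ℝ) := by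
        apply sum_le_sum
        intro D hD
        apply mul_le_mul_of_nonneg_left _ (a0 D)
        have h5 := hle i hi.2 D hD
        have h6 : cnt (2 ^ (J - i)) D ≤ ((Icc 1 (2 ^ (J - i))).filter
            (fun m => (D * m + 1).Prime ∧ 2 ^ (J - 1) < D * m + 1)).card := by
          rw [hcnt]
          apply card_le_card
          intro m hm
          rw [mem_filter] at hm ⊢
          exact ⟨hm.1, hm.2.1, hm.2.2.1⟩
        exact_mod_cast h5.trans h6
      have h7 : C1 * ((2 : ℝ) ^ (J - i) / J) * ∑ D ∈ Ioc (2 ^ i) (2 ^ (i + 1)), α D ≤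
          2 * C1 * (2 ^ J / J) * ∑ D ∈ Ioc (2 ^ i) (2 ^ (i + 1)), α D / D := by
        rw [mul_sum, mul_sum]
        apply sum_le_sum
        intro D hD
        rw [mem_Ioc] at hD
        have hD0 : (0 : ℝ) < D := by exact_mod_cast (by omega : 0 < D)
        have e1 : (2 : ℝ) ^ (J - i) * 2 ^ i = 2 ^ J := by
          rw [← pow_add, Nat.sub_add_cancel hi.2.le]
        have e2 : (D : ℝ) ≤ 2 * 2 ^ i := by
          have : D ≤ 2 * 2 ^ i := by rw [pow_succ] at hD; omega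
          exact_mod_cast this
        have e3 : (2 : ℝ) ^ (J - i) ≤ 2 * 2 ^ J / D := by
          rw [le_div_iff₀ hD0, ← e1]
          have : (0 : ℝ) < 2 ^ (J - i) := by positivity
          nlinarith
        calc C1 * ((2 : ℝ) ^ (J - i) / J) * α D = (C1 / J * α D) * 2 ^ (J - i) := by ring
          _ ≤ (C1 / J * α D) * (2 * 2 ^ J / D) := by
              apply mul_le_mul_of_nonneg_left e3
              have := a0 D
              positivity
          _ = _ := by ring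
      linarith
    · -- the cofactor is small
      have h4 : ∑ D ∈ Ioc (2 ^ i) (2 ^ (i + 1)),
          α D * (((blk J).filter (fun q => D ∣ q - 1)).card : ℝ) ≤
          ∑ D ∈ Ioc (2 ^ i) (2 ^ (i + 1)), g D := by
        apply sum_le_sum
        intro D hD
        rw [hg]
        simp only
        by_cases hz : α D = 0
        · rw [hz, zero_mul]
          exact hg0 D
        · rw [if_pos (aR D hz)]
          have h5 := hle i hi.2 D hD
          have h6 : cnt (2 ^ (J - i)) D ≤ cnt (J ^ B) D := by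
            rw [hcnt]
            apply card_le_card
            apply filter_subset_filter
            apply Icc_subset_Icc_right
            omega
          have h7 : (((blk J).filter (fun q => D ∣ q - 1)).card : ℝ) ≤ cnt (J ^ B) D := by
            exact_mod_cast h5.trans h6
          calc α D * (((blk J).filter (fun q => D ∣ q - 1)).card : ℝ) ≤
              1 * (((blk J).filter (fun q => D ∣ q - 1)).card : ℝ) :=
                mul_le_mul_of_nonneg_right (a1 D) (Nat.cast_nonneg _)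
            _ ≤ _ := by rw [one_mul]; exact h7
      linarith
  refine (sum_le_sum hblock).trans ?_
  rw [sum_add_distrib, sum_add_distrib, ← dyad g e J he, ← mul_sum, ← dyad (fun D => α D / D) e J he]
  -- the cofactor sum
  have hcof : ∑ D ∈ Ioc (2 ^ e) (2 ^ J), g D ≤ C2 * (2 : ℝ) ^ J / (J : ℝ) ^ (3 / 2 : ℝ) := by
    refine le_trans ?_ (h2 J hJ2)
    have e1 : ∑ D ∈ Ioc (2 ^ e) (2 ^ J), g D ≤ ∑ D ∈ Icc 2 (2 ^ J), g D := by
      apply sum_le_sum_of_subset_of_nonneg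
      · intro D hD
        rw [mem_Ioc] at hD
        rw [mem_Icc]
        have : 1 ≤ 2 ^ e := Nat.one_le_two_pow
        omega
      · intro D _ _
        exact hg0 D
    refine e1.trans (le_of_eq ?_)
    have e2 : ∀ D ∈ Icc 2 (2 ^ J), g D = ∑ m ∈ Icc 1 (J ^ B), if (Pool.Agent.N907.EG.Rough (iJ J) D ∧
        (D * m + 1).Prime ∧ 2 ^ (J - 1) < D * m + 1 ∧ D * m + 1 ≤ 2 ^ J) then (1 : ℝ) else 0 := by
      intro D _
      rw [hg]
      simp only
      by_cases hR : Pool.Agent.N907.EG.Rough (iJ J) D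
      · rw [if_pos hR, hcnt]
        simp only
        rw [← sum_filter, sum_const, nsmul_eq_mul, mul_one]
        congr 2
        ext m
        simp only [mem_filter, hR, true_and]
      · rw [if_neg hR]
        symm
        apply sum_eq_zero
        intro m _
        rw [if_neg (fun h => hR h.1)]
    rw [sum_congr rfl e2, sum_comm]
    apply sum_congr rfl; intro m _
    rw [← sum_filter, sum_const, nsmul_eq_mul, mul_one]
  have h4 : ∑ i ∈ Ico e J, (2 : ℝ) ^ J / (J : ℝ) ^ 4 ≤ 2 ^ J / (J : ℝ) ^ (3 / 2 : ℝ) := by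
    rw [sum_const, Nat.card_Ico, nsmul_eq_mul]
    have e1 : ((J - e : ℕ) : ℝ) ≤ J := by exact_mod_cast Nat.sub_le _ _
    have e2 : (J : ℝ) ^ (3 / 2 : ℝ) ≤ (J : ℝ) ^ 3 := by
      rw [← Real.rpow_natCast (J : ℝ) 3]
      exact Real.rpow_le_rpow_of_exponent_le hJr (by norm_num)
    have e3 : 0 < (J : ℝ) ^ (3 / 2 : ℝ) := by positivity
    calc ((J - e : ℕ) : ℝ) * ((2 : ℝ) ^ J / (J : ℝ) ^ 4) ≤ J * ((2 : ℝ) ^ J / (J : ℝ) ^ 4) :=
          mul_le_mul_of_nonneg_right e1 (by positivity)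
      _ = 2 ^ J / (J : ℝ) ^ 3 := by field_simp
      _ ≤ _ := div_le_div_of_nonneg_left (by positivity) e3 e2
  have hH : 0 ≤ ∑ D ∈ Ioc (2 ^ e) (2 ^ J), α D / D :=
    sum_nonneg fun D _ => div_nonneg (a0 D) (Nat.cast_nonneg _)
  have h5 : 2 * C1 * ((2 : ℝ) ^ J / J) * ∑ D ∈ Ioc (2 ^ e) (2 ^ J), α D / D ≤
      (2 * C1 + C2 + 1) * ((2 : ℝ) ^ J / J) * ∑ D ∈ Ioc (2 ^ e) (2 ^ J), α D / D := by
    apply mul_le_mul_of_nonneg_right _ hH
    apply mul_le_mul_of_nonneg_right _ (by positivity)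
    linarith
  have h6 : (C2 + 1) * (2 : ℝ) ^ J / (J : ℝ) ^ (3 / 2 : ℝ) ≤ (2 * C1 + C2 + 1) * 2 ^ J / (J : ℝ) ^ (3 / 2 : ℝ) := by
    apply div_le_div_of_nonneg_right _ (by positivity)
    apply mul_le_mul_of_nonneg_right _ (by positivity)
    linarith
  have h7 : (C2 + 1) * (2 : ℝ) ^ J / (J : ℝ) ^ (3 / 2 : ℝ) = C2 * (2 : ℝ) ^ J / (J : ℝ) ^ (3 / 2 : ℝ) +
      2 ^ J / (J : ℝ) ^ (3 / 2 : ℝ) := by ring
  linarith

/-- harmonic sums over dyadic blocks -/
lemma blocks {e N : ℕ} (he : e ≤ Nat.log 2 N + 1) (g : ℕ → ℝ) (hg : ∀ n, 0 ≤ g n) :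
    H (2 ^ e) N g ≤ ∑ i ∈ Ico e (Nat.log 2 N + 1),
      ((2 : ℝ) ^ i)⁻¹ * ∑ q ∈ blk (i + 1), (if q ≤ N then g q else 0) := by
  have hN : N < 2 ^ (Nat.log 2 N + 1) := Nat.lt_pow_succ_log_self (by norm_num) N
  have h1 : H (2 ^ e) N g ≤ ∑ D ∈ Ioc (2 ^ e) (2 ^ (Nat.log 2 N + 1)),
      (if D.Prime ∧ D ≤ N then g D / D else 0) := by
    unfold H PR
    rw [sum_filter]
    calc ∑ D ∈ Ioc (2 ^ e) N, (if D.Prime then g D / D else 0)
        = ∑ D ∈ Ioc (2 ^ e) N, (if D.Prime ∧ D ≤ N then g D / D else 0) := by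
          apply sum_congr rfl
          intro D hD
          rw [mem_Ioc] at hD
          simp only [hD.2, and_true]
      _ ≤ _ := by
          apply sum_le_sum_of_subset_of_nonneg
          · exact Ioc_subset_Ioc_right hN.le
          · intro D _ _
            split_ifs
            · exact div_nonneg (hg D) (Nat.cast_nonneg _)
            · exact le_rfl
  refine h1.trans ?_
  rw [dyad _ e _ he]
  apply sum_le_sum
  intro i _
  unfold blk
  rw [Nat.add_sub_cancel, sum_filter, mul_sum]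
  apply sum_le_sum
  intro D hD
  rw [mem_Ioc] at hD
  by_cases hp : D.Prime
  · by_cases hDN : D ≤ N
    · rw [if_pos ⟨hp, hDN⟩, if_pos hp, if_pos hDN]
      have e1 : (2 : ℝ) ^ i ≤ D := by exact_mod_cast hD.1.le
      rw [div_eq_mul_inv, mul_comm]
      apply mul_le_mul_of_nonneg_right _ (hg D)
      exact inv_anti₀ (by positivity) e1
    · rw [if_neg (fun h => hDN h.2), if_pos hp, if_neg hDN, mul_zero]
  · rw [if_neg (fun h => hp h.1), if_neg hp, mul_zero]

/-- threshold facts -/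
lemma e_facts (N J0 : ℕ) : Nat.log 2 N + 1 ≤ (Nat.log 2 N / (J0 + 1) + 1) * (J0 + 1) := by
  have : Nat.log 2 N < (J0 + 1) * (Nat.log 2 N / (J0 + 1) + 1) :=
    Nat.lt_mul_div_succ (Nat.log 2 N) (Nat.succ_pos J0)
  have e : (J0 + 1) * (Nat.log 2 N / (J0 + 1) + 1) = (Nat.log 2 N / (J0 + 1) + 1) * (J0 + 1) := by ring
  omega

lemma iJ_le {J e J0 : ℕ} (h : J ≤ e * (J0 + 1)) (he : (J0 + 1) ^ 7 ≤ e) : iJ J ≤ e := by
  unfold iJ
  rw [Nat.ceil_le]
  have h1 : (J : ℝ) ^ (7 / 8 : ℝ) ≤ ((e : ℝ) ^ 8) ^ (1 / 8 : ℝ) := by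
    have e1 : (J : ℝ) ^ (7 / 8 : ℝ) = ((J : ℝ) ^ 7) ^ (1 / 8 : ℝ) := by
      rw [← Real.rpow_natCast, ← Real.rpow_mul (Nat.cast_nonneg _)]
      norm_num
    rw [e1]
    apply Real.rpow_le_rpow (by positivity) _ (by norm_num)
    have : J ^ 7 ≤ e ^ 8 := by
      calc J ^ 7 ≤ (e * (J0 + 1)) ^ 7 := Nat.pow_le_pow_left h 7
        _ = e ^ 7 * (J0 + 1) ^ 7 := by rw [mul_pow]
        _ ≤ e ^ 7 * e := Nat.mul_le_mul_left _ he
        _ = e ^ 8 := by ring
    exact_mod_cast this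
  have h2 : ((e : ℝ) ^ 8) ^ (1 / 8 : ℝ) = e := by
    rw [← Real.rpow_natCast, ← Real.rpow_mul (Nat.cast_nonneg _)]
    norm_num
  rw [h2] at h1
  exact h1

lemma ev_log (M : ℕ) (J0 : ℕ) : ∃ N₀ : ℕ, ∀ N, N₀ ≤ N → M ≤ Nat.log 2 N / (J0 + 1) := by
  refine ⟨2 ^ (M * (J0 + 1)), fun N hN => ?_⟩
  rw [Nat.le_div_iff_mul_le (Nat.succ_pos _)]
  have h0 : N ≠ 0 := by
    have : 0 < 2 ^ (M * (J0 + 1)) := by positivity
    omega
  exact (Nat.le_log_iff_pow_le (by norm_num) h0).2 hN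

/-- domination -/
theorem dom : ∃ C : ℝ, 1 ≤ C ∧ ∀ (J0 : ℕ) (A ε : ℝ), 1 ≤ A → 0 < ε → ∃ N₀ : ℕ, ∀ N : ℕ, N₀ ≤ N →
    ∀ e : ℕ, e = Nat.log 2 N / (J0 + 1) + 1 → ∀ α : ℕ → ℝ, (∀ p, 0 ≤ α p) →
      (∀ p ∈ PR (2 ^ e) N, α p ≤ A) →
      H (2 ^ e) N (T (2 ^ e) N α) ≤ C * (J0 + 1) * H (2 ^ e) N α + ε := by
  obtain ⟨C, hC, J1, h⟩ := blk_dom
  refine ⟨2 * C + 1, by linarith, fun J0 A ε hA hε => ?_⟩
  obtain ⟨M, hM⟩ := exists_nat_gt ((2 * A * C * (J0 + 1) / ε) ^ 2)
  obtain ⟨N₀, hN₀⟩ := ev_log (max (max J1 ((J0 + 1) ^ 7)) M) J0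
  refine ⟨N₀, fun N hN e he α a0 aA => ?_⟩
  have h1 := hN₀ N hN
  have g1 : J1 ≤ e := by
    have : J1 ≤ max (max J1 ((J0 + 1) ^ 7)) M := le_trans (le_max_left _ _) (le_max_left _ _)
    omega
  have g2 : (J0 + 1) ^ 7 ≤ e := by
    have : (J0 + 1) ^ 7 ≤ max (max J1 ((J0 + 1) ^ 7)) M := le_trans (le_max_right _ _) (le_max_left _ _)
    omega
  have g3 : M ≤ e := by
    have : M ≤ max (max J1 ((J0 + 1) ^ 7)) M := le_max_right _ _
    omega
  have g4 : Nat.log 2 N + 1 ≤ e * (J0 + 1) := by rw [he]; exact e_facts N J0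
  have g5 : e ≤ Nat.log 2 N + 1 := by
    rw [he]
    have := Nat.div_le_self (Nat.log 2 N) (J0 + 1)
    omega
  have e0 : 1 ≤ e := by omega
  have er : (1 : ℝ) ≤ e := by exact_mod_cast e0
  set z := 2 ^ e with hz
  have hH0 : 0 ≤ H z N α := sum_nonneg fun p _ => div_nonneg (a0 p) (Nat.cast_nonneg _)
  have hT0 : ∀ q, 0 ≤ T z N α q := fun q => T_nonneg a0 q
  -- the normalised weight
  set α' : ℕ → ℝ := fun D => if D ∈ PR z N then α D / A else 0 with hα'
  have a'0 : ∀ D, 0 ≤ α' D := fun D => by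
    rw [hα']; simp only
    split_ifs
    · exact div_nonneg (a0 D) (by linarith)
    · exact le_rfl
  have a'1 : ∀ D, α' D ≤ 1 := fun D => by
    rw [hα']; simp only
    split_ifs with hD
    · rw [div_le_one (by linarith)]
      exact aA D hD
    · norm_num
  have hterm : ∀ i ∈ Ico e (Nat.log 2 N + 1), ((2 : ℝ) ^ i)⁻¹ * ∑ q ∈ blk (i + 1),
      (if q ≤ N then T z N α q else 0) ≤ 2 * C / e * H z N α + 2 * A * C / (e * Real.sqrt e) := by
    intro i hi
    rw [mem_Ico] at hi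
    have hJ : J1 ≤ i + 1 := by omega
    have hiJ : iJ (i + 1) ≤ e := iJ_le (by omega) g2
    have h3 := h (i + 1) hJ e (by omega) α' a'0 a'1 (by
      intro D hD q hq hqD
      have hDP : D ∈ PR z N := by
        by_contra hcon
        apply hD
        rw [hα']; simp only
        rw [if_neg hcon]
      obtain ⟨⟨d1, d2⟩, d3⟩ := mem_PR.1 hDP
      have : q = D := (Nat.prime_dvd_prime_iff_eq hq d3).1 hqD
      rw [this]
      exact lt_of_le_of_lt (Nat.pow_le_pow_right (by norm_num) hiJ) d1)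
    have h4 : ∑ q ∈ blk (i + 1), (if q ≤ N then T z N α q else 0) ≤
        A * ∑ q ∈ blk (i + 1), ∑ D ∈ Ioc (2 ^ e) (2 ^ (i + 1)), (if D ∣ q - 1 then α' D else 0) := by
      rw [mul_sum]
      apply sum_le_sum
      intro q hq
      rw [mem_blk] at hq
      have hnn : 0 ≤ ∑ D ∈ Ioc (2 ^ e) (2 ^ (i + 1)), (if D ∣ q - 1 then α' D else 0) :=
        sum_nonneg fun D _ => by split_ifs; exacts [a'0 D, le_rfl]
      split_ifs with hqN
      · unfold T S
        have e1 : ∑ p ∈ PR z N, (if p ∣ q - 1 then α p else 0) =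
            ∑ p ∈ (PR z N).filter (fun p => p ∣ q - 1), α p := by rw [sum_filter]
        rw [e1, ← sum_filter, mul_sum]
        have e2 : ∑ p ∈ (PR z N).filter (fun p => p ∣ q - 1), α p =
            ∑ p ∈ (PR z N).filter (fun p => p ∣ q - 1), A * α' p := by
          apply sum_congr rfl
          intro p hp
          rw [mem_filter] at hp
          rw [hα']; simp only
          rw [if_pos hp.1]
          field_simp
        rw [e2]
        apply sum_le_sum_of_subset_of_nonneg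
        · intro p hp
          rw [mem_filter] at hp
          obtain ⟨⟨d1, d2⟩, d3⟩ := mem_PR.1 hp.1
          have hq2 := hq.2.two_le
          have := Nat.le_of_dvd (by omega) hp.2
          rw [mem_filter, mem_Ioc]
          exact ⟨⟨d1, by omega⟩, hp.2⟩
        · intro D _ _
          exact mul_nonneg (by linarith) (a'0 D)
      · exact mul_nonneg (by linarith) hnn
    have h5 : A * ∑ D ∈ Ioc (2 ^ e) (2 ^ (i + 1)), α' D / D ≤ H z N α := by
      unfold H
      rw [mul_sum]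
      have e1 : ∑ D ∈ Ioc (2 ^ e) (2 ^ (i + 1)), A * (α' D / D) =
          ∑ D ∈ (Ioc (2 ^ e) (2 ^ (i + 1))).filter (fun D => D ∈ PR z N), α D / D := by
        rw [sum_filter]
        apply sum_congr rfl
        intro D _
        rw [hα']; simp only
        split_ifs
        · field_simp
        · simp
      rw [e1]
      apply sum_le_sum_of_subset_of_nonneg
      · intro D hD
        exact (mem_filter.1 hD).2
      · intro D _ _
        exact div_nonneg (a0 D) (Nat.cast_nonneg _)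
    have i1 : (0 : ℝ) < ((i + 1 : ℕ) : ℝ) := by exact_mod_cast Nat.succ_pos i
    have i2 : (e : ℝ) ≤ ((i + 1 : ℕ) : ℝ) := by exact_mod_cast (by omega : e ≤ i + 1)
    have h6 : (e : ℝ) * Real.sqrt e ≤ ((i + 1 : ℕ) : ℝ) ^ (3 / 2 : ℝ) := by
      have e1 : ((i + 1 : ℕ) : ℝ) ^ (3 / 2 : ℝ) = ((i + 1 : ℕ) : ℝ) * Real.sqrt ((i + 1 : ℕ) : ℝ) := by
        rw [Real.sqrt_eq_rpow, show (3 / 2 : ℝ) = 1 + 1 / 2 by norm_num, Real.rpow_add i1, Real.rpow_one]
      rw [e1]
      exact mul_le_mul i2 (Real.sqrt_le_sqrt i2) (Real.sqrt_nonneg _) i1.le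
    have hs : 0 < (e : ℝ) * Real.sqrt e := by
      have : 0 < Real.sqrt e := Real.sqrt_pos.2 (by linarith)
      positivity
    calc ((2 : ℝ) ^ i)⁻¹ * ∑ q ∈ blk (i + 1), (if q ≤ N then T z N α q else 0)
        ≤ ((2 : ℝ) ^ i)⁻¹ * (A * (C * (2 ^ (i + 1) / ((i + 1 : ℕ) : ℝ)) *
            ∑ D ∈ Ioc (2 ^ e) (2 ^ (i + 1)), α' D / D +
            C * 2 ^ (i + 1) / ((i + 1 : ℕ) : ℝ) ^ (3 / 2 : ℝ))) := by
          apply mul_le_mul_of_nonneg_left _ (by positivity)
          exact h4.trans (mul_le_mul_of_nonneg_left h3 (by linarith))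
      _ = 2 * C / ((i + 1 : ℕ) : ℝ) * (A * ∑ D ∈ Ioc (2 ^ e) (2 ^ (i + 1)), α' D / D) +
            2 * A * C / ((i + 1 : ℕ) : ℝ) ^ (3 / 2 : ℝ) := by
          rw [pow_succ]
          field_simp
      _ ≤ 2 * C / e * H z N α + 2 * A * C / (e * Real.sqrt e) := by
          apply add_le_add
          · apply mul_le_mul _ h5
            · apply mul_nonneg (by linarith)
              exact sum_nonneg fun D _ => div_nonneg (a'0 D) (Nat.cast_nonneg _)
            · positivity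
            · exact div_le_div_of_nonneg_left (by linarith) (by linarith) i2
          · exact div_le_div_of_nonneg_left (by positivity) hs h6
  have h7 := blocks g5 (T z N α) hT0
  rw [← hz] at h7
  refine h7.trans ((sum_le_sum hterm).trans ?_)
  rw [sum_const, Nat.card_Ico, nsmul_eq_mul]
  have hn : ((Nat.log 2 N + 1 - e : ℕ) : ℝ) ≤ e * (J0 + 1) := by
    exact_mod_cast (Nat.sub_le _ _).trans g4
  have hs0 : 0 < Real.sqrt e := Real.sqrt_pos.2 (by linarith)
  have hsq : 2 * A * C * (J0 + 1) / ε ≤ Real.sqrt e := by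
    apply Real.le_sqrt_of_sq_le
    have : (M : ℝ) ≤ e := by exact_mod_cast g3
    linarith
  calc ((Nat.log 2 N + 1 - e : ℕ) : ℝ) * (2 * C / e * H z N α + 2 * A * C / (e * Real.sqrt e))
      ≤ (e * (J0 + 1)) * (2 * C / e * H z N α + 2 * A * C / (e * Real.sqrt e)) :=
        mul_le_mul_of_nonneg_right hn (by positivity)
    _ = 2 * C * (J0 + 1) * H z N α + 2 * A * C * (J0 + 1) / Real.sqrt e := by
        field_simp
    _ ≤ (2 * C + 1) * (J0 + 1) * H z N α + ε := by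
        apply add_le_add
        · apply mul_le_mul_of_nonneg_right _ hH0
          apply mul_le_mul_of_nonneg_right _ (by positivity)
          linarith
        · rw [div_le_iff₀ hs0]
          rw [div_le_iff₀ hε] at hsq
          linarith

end Pool.Agent.N826.IT
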