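import Pool.Agent.N826.IT.D
import Pool.Agent.N907.EG.Small

set_option autoImplicit false

/-!
Iterated totients, part D2: iterated domination; few primes `p` such that `p - 1` has a large smooth part.
-/

namespace Pool.Agent.N826.IT

open Finset Classical
open Pool.Agent.N733.TG
open Pool.Agent.N907.EG (blk iJ Bsm)

lemma card_big {z N n J : ℕ} (hz : N < (z + 1) ^ (J + 1)) (hn : 1 ≤ n) (hnN : n ≤ N) :
    ((PR z N).filter (fun p => p ∣ n)).card ≤ J := by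
  set F := (PR z N).filter (fun p => p ∣ n) with hF
  have h1 : F ⊆ n.primeFactors := by
    intro p hp
    rw [hF, mem_filter] at hp
    rw [Nat.mem_primeFactors]
    exact ⟨(mem_PR.1 hp.1).2, hp.2, by omega⟩
  have h2 : ∏ p ∈ F, p ∣ n := (prod_dvd_prod_of_subset _ _ _ h1).trans (Nat.prod_primeFactors_dvd n)
  have h3 := Nat.le_of_dvd (by omega) h2
  have h4 : (z + 1) ^ F.card ≤ ∏ p ∈ F, p := by
    apply Finset.pow_card_le_prod
    intro p hp
    rw [hF, mem_filter] at hp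
    have := (mem_PR.1 hp.1).1.1
    omega
  have h5 : (z + 1) ^ F.card < (z + 1) ^ (J + 1) := by omega
  by_contra h
  push Not at h
  have : (z + 1) ^ (J + 1) ≤ (z + 1) ^ F.card := Nat.pow_le_pow_right (by omega) (by omega)
  omega

lemma z_big (N J0 : ℕ) : N < (2 ^ (Nat.log 2 N / (J0 + 1) + 1) + 1) ^ (J0 + 1) := by
  have h1 := e_facts N J0
  calc N < 2 ^ (Nat.log 2 N + 1) := Nat.lt_pow_succ_log_self (by norm_num) N
    _ ≤ 2 ^ ((Nat.log 2 N / (J0 + 1) + 1) * (J0 + 1)) := Nat.pow_le_pow_right (by norm_num) h1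
    _ = (2 ^ (Nat.log 2 N / (J0 + 1) + 1)) ^ (J0 + 1) := by rw [pow_mul]
    _ ≤ _ := Nat.pow_le_pow_left (by omega) _

lemma T_sup {z N J : ℕ} (hz : N < (z + 1) ^ (J + 1)) {α : ℕ → ℝ} {A : ℝ} (hA : 0 ≤ A)
    (h1 : ∀ p ∈ PR z N, α p ≤ A) {q : ℕ} (hq : q ∈ PR z N) : T z N α q ≤ (J + 1) * A := by
  obtain ⟨⟨q1, q2⟩, q3⟩ := mem_PR.1 hq
  have hq2 := q3.two_le
  have hc := card_big (n := q - 1) hz (by omega) (by omega)
  unfold T S
  rw [← sum_filter]
  calc ∑ p ∈ (PR z N).filter (fun p => p ∣ q - 1), α p ≤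
        ∑ p ∈ (PR z N).filter (fun p => p ∣ q - 1), A :=
        sum_le_sum fun p hp => h1 p (mem_filter.1 hp).1
    _ = (((PR z N).filter (fun p => p ∣ q - 1)).card : ℝ) * A := by rw [sum_const, nsmul_eq_mul]
    _ ≤ (J + 1) * A := by
        apply mul_le_mul_of_nonneg_right _ hA
        have : (((PR z N).filter (fun p => p ∣ q - 1)).card : ℝ) ≤ J := by exact_mod_cast hc
        linarith

lemma Titer_nonneg {z N : ℕ} {α : ℕ → ℝ} (h : ∀ p, 0 ≤ α p) (i : ℕ) : ∀ q, 0 ≤ ((T z N)^[i] α) q := by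
  induction i with
  | zero => exact h
  | succ i ih =>
    intro q
    rw [Function.iterate_succ_apply']
    exact T_nonneg ih q

lemma Titer_sup {z N J : ℕ} (hz : N < (z + 1) ^ (J + 1)) {α : ℕ → ℝ}
    (h1 : ∀ p ∈ PR z N, α p ≤ 1) (i : ℕ) : ∀ q ∈ PR z N, ((T z N)^[i] α) q ≤ (J + 1) ^ i := by
  induction i with
  | zero => intro q hq; simpa using h1 q hq
  | succ i ih =>
    intro q hq
    rw [Function.iterate_succ_apply']
    refine (T_sup hz (by positivity) ih hq).trans (le_of_eq ?_)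
    ring

/-- iterated domination -/
theorem domi : ∃ C : ℝ, 1 ≤ C ∧ ∀ (J0 i : ℕ) (ε : ℝ), 0 < ε → ∃ N₀ : ℕ, ∀ N : ℕ, N₀ ≤ N →
    ∀ e : ℕ, e = Nat.log 2 N / (J0 + 1) + 1 → ∀ α : ℕ → ℝ, (∀ p, 0 ≤ α p) →
      (∀ p ∈ PR (2 ^ e) N, α p ≤ 1) →
      H (2 ^ e) N ((T (2 ^ e) N)^[i] α) ≤ (C * (J0 + 1)) ^ i * H (2 ^ e) N α + ε := by
  obtain ⟨C, hC, h⟩ := dom
  refine ⟨C, hC, fun J0 i => ?_⟩
  have hc0 : 0 < C * ((J0 : ℝ) + 1) := by positivity
  induction i with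
  | zero =>
    intro ε hε
    refine ⟨0, fun N _ e _ α _ _ => ?_⟩
    simp only [Function.iterate_zero, id, pow_zero, one_mul]
    linarith
  | succ i ih =>
    intro ε hε
    obtain ⟨N1, h1⟩ := ih (ε / 2 / (C * ((J0 : ℝ) + 1))) (by positivity)
    obtain ⟨N2, h2⟩ := h J0 (((J0 : ℝ) + 1) ^ i) (ε / 2)
      (one_le_pow₀ (by have : (0 : ℝ) ≤ J0 := Nat.cast_nonneg _; linarith)) (by positivity)
    refine ⟨max N1 N2, fun N hN e he α a0 a1 => ?_⟩
    have b1 : N1 ≤ N := le_trans (le_max_left _ _) hN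
    have b2 : N2 ≤ N := le_trans (le_max_right _ _) hN
    have hz : N < (2 ^ e + 1) ^ (J0 + 1) := by rw [he]; exact z_big N J0
    have h3 := h1 N b1 e he α a0 a1
    have h4 := h2 N b2 e he ((T (2 ^ e) N)^[i] α) (Titer_nonneg a0 i) (Titer_sup hz a1 i)
    rw [Function.iterate_succ_apply']
    calc _ ≤ C * (J0 + 1) * H (2 ^ e) N ((T (2 ^ e) N)^[i] α) + ε / 2 := h4
      _ ≤ C * (J0 + 1) * ((C * (J0 + 1)) ^ i * H (2 ^ e) N α + ε / 2 / (C * ((J0 : ℝ) + 1))) + ε / 2 := by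
          have := mul_le_mul_of_nonneg_left h3 hc0.le
          linarith
      _ = _ := by
          field_simp
          ring

/-! ### smooth parts -/

lemma log_sp_le (i n : ℕ) : Real.log (sp (2 ^ i) n) ≤ Bsm i n := by
  have h1 : Real.log (sp (2 ^ i) n) = ∑ q ∈ n.primeFactors with q ≤ 2 ^ i,
      (n.factorization q : ℝ) * Real.log q := by
    unfold sp
    push_cast
    rw [Real.log_prod (fun p hp => by
      split_ifs
      · have := (Nat.prime_of_mem_primeFactors hp).pos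
        positivity
      · norm_num), sum_filter]
    apply sum_congr rfl
    intro p _
    split_ifs
    · rw [Real.log_pow]
    · rw [Real.log_one]
  rw [h1]
  unfold Bsm
  rw [← Finset.sum_filter_add_sum_filter_not n.primeFactors (fun q => q ≤ 2 ^ i)
    (fun q => (n.factorization q : ℝ) * Real.log q)]
  have h2 : (n.primeFactors.filter (fun q => 2 ^ i < q)) = n.primeFactors.filter (fun q => ¬ q ≤ 2 ^ i) := by
    apply filter_congr
    intro q _
    rw [not_le]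
  rw [h2]
  have h3 : ∑ q ∈ n.primeFactors with ¬ q ≤ 2 ^ i, Real.log q ≤
      ∑ q ∈ n.primeFactors with ¬ q ≤ 2 ^ i, (n.factorization q : ℝ) * Real.log q := by
    apply sum_le_sum
    intro q hq
    rw [mem_filter, Nat.mem_primeFactors] at hq
    have h4 : 1 ≤ n.factorization q :=
      (Nat.Prime.dvd_iff_one_le_factorization hq.1.1 hq.1.2.2).1 hq.1.2.1
    have h5 : (1 : ℝ) ≤ n.factorization q := by exact_mod_cast h4
    have h6 : 0 ≤ Real.log (q : ℝ) := Real.log_natCast_nonneg q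
    nlinarith
  linarith

lemma pow_le_two (a k : ℕ) : ∃ M : ℕ, ∀ e : ℕ, M ≤ e → (e * a) ^ k ≤ 2 ^ e := by
  have h := tendsto_pow_const_div_const_pow_of_one_lt k (show (1 : ℝ) < 2 by norm_num)
  have h2 : Filter.Tendsto (fun n : ℕ => (a : ℝ) ^ k * ((n : ℝ) ^ k / 2 ^ n)) Filter.atTop (nhds 0) := by
    simpa using h.const_mul ((a : ℝ) ^ k)
  obtain ⟨M, hM⟩ := Filter.eventually_atTop.1 (h2.eventually_le_const (show (0 : ℝ) < 1 by norm_num))
  refine ⟨M, fun e he => ?_⟩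
  have h3 := hM e he
  have h4 : ((e : ℝ) * a) ^ k ≤ 2 ^ e := by
    rw [← mul_div_assoc, div_le_one (by positivity)] at h3
    rw [mul_pow, mul_comm]
    exact h3
  exact_mod_cast h4

/-- few primes `p` are such that `p - 1` has a large smooth part -/
theorem small_part : ∃ C : ℝ, 0 < C ∧ ∀ J0 J1 E : ℕ, 1 ≤ E → 3 * (J0 + 1) ≤ J1 + 1 → ∃ N₀ : ℕ,
    ∀ N : ℕ, N₀ ≤ N → ∀ e0 e1 K : ℕ, e0 = Nat.log 2 N / (J0 + 1) + 1 → e1 = Nat.log 2 N / (J1 + 1) + 1 →
      K = 2 ^ (Nat.log 2 N / E) →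
      H (2 ^ e0) N (fun p => if K < (sp (2 ^ e1) (p - 1)) ^ (J0 + 1) then 1 else 0) ≤
        C * (J0 + 1) ^ 2 * E / (J1 + 1) := by
  obtain ⟨C₁, hC₁, hM⟩ := Erdos456.mertens_log_upper
  have hlog2 : 0 < Real.log 2 := Real.log_pos (by norm_num)
  obtain ⟨Cs, hCs⟩ : ∃ Cs : ℝ, Cs = 2 * (176 / Real.log 2) * C₁ + 5 := ⟨_, rfl⟩
  have hCs0 : 0 < Cs := by rw [hCs]; positivity
  refine ⟨8 * Cs / Real.log 2, by positivity, fun J0 J1 E hE hJ => ?_⟩
  obtain ⟨M1, hM1⟩ := pow_le_two (3 * (J0 + 1)) 5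
  obtain ⟨M2, hM2⟩ := pow_le_two (J1 + 1) 2
  obtain ⟨n1, hn1⟩ := ev_log (3 * M1 + 3) J0
  obtain ⟨n2, hn2⟩ := ev_log (M2 + J1 + 1) J1
  obtain ⟨n3, hn3⟩ := ev_log (E + 1) 0
  refine ⟨max n1 (max n2 n3), fun N hN e0 e1 K he0 he1 hK => ?_⟩
  have b1 : n1 ≤ N := le_trans (le_max_left _ _) hN
  have b2 : n2 ≤ N := le_trans (le_trans (le_max_left _ _) (le_max_right _ _)) hN
  have b3 : n3 ≤ N := le_trans (le_trans (le_max_right _ _) (le_max_right _ _)) hN
  have c1 := hn1 N b1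
  have c2 := hn2 N b2
  have c3 := hn3 N b3
  rw [zero_add, Nat.div_one] at c3
  obtain ⟨ℓ, hℓ⟩ : ∃ ℓ, ℓ = Nat.log 2 N := ⟨_, rfl⟩
  have f0 := e_facts N J0
  have f1 := e_facts N J1
  rw [← he0, ← hℓ] at f0
  rw [← he1, ← hℓ] at f1
  rw [← hℓ] at he0 he1 hK c1 c2 c3
  -- relation of the thresholds
  obtain ⟨t, ht⟩ : ∃ t, t = ℓ / (J0 + 1) / 3 := ⟨_, rfl⟩
  have ht1 : ℓ / (J1 + 1) ≤ t := by
    rw [ht, Nat.div_div_eq_div_mul, mul_comm]
    exact Nat.div_le_div_left hJ (by omega)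
  have he1t : e1 ≤ t + 1 := by omega
  have he0t : 3 * t + 1 ≤ e0 ∧ e0 ≤ 3 * t + 3 := by omega
  have htM : M1 ≤ t + 1 := by omega
  have hgrow := hM1 (t + 1) htM
  have e0r : (0 : ℝ) < e0 := by exact_mod_cast (by omega : 0 < e0)
  have hlogK : Real.log K = (ℓ / E : ℕ) * Real.log 2 := by
    rw [hK]; push_cast; rw [Real.log_pow]
  have hEr : (0 : ℝ) < E := by exact_mod_cast hE
  have hq1 : (ℓ : ℝ) / (2 * E) ≤ ((ℓ / E : ℕ) : ℝ) := by
    rw [div_le_iff₀ (by positivity)]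
    have h1 : ℓ < E * (ℓ / E + 1) := Nat.lt_mul_div_succ ℓ (by omega)
    have h2 : 1 ≤ ℓ / E := by
      rw [Nat.le_div_iff_mul_le (by omega)]
      omega
    have h3 : ℓ ≤ (ℓ / E) * (2 * E) := by nlinarith
    exact_mod_cast h3
  have hℓr : (0 : ℝ) < ℓ := by exact_mod_cast (by omega : 0 < ℓ)
  have hlogK2 : (ℓ : ℝ) * Real.log 2 / (2 * E) ≤ Real.log K := by
    rw [hlogK]
    calc (ℓ : ℝ) * Real.log 2 / (2 * E) = ℓ / (2 * E) * Real.log 2 := by ring
      _ ≤ _ := mul_le_mul_of_nonneg_right hq1 hlog2.le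
  have hlogK0 : 0 < Real.log K := lt_of_lt_of_le (by positivity) hlogK2
  set B : ℕ → ℝ := fun p => if K < (sp (2 ^ e1) (p - 1)) ^ (J0 + 1) then 1 else 0 with hB
  have hB0 : ∀ p, 0 ≤ B p := fun p => by rw [hB]; simp only; split_ifs <;> norm_num
  have hBle : ∀ p, B p ≤ ((J0 : ℝ) + 1) / Real.log K * Bsm e1 (p - 1) := by
    intro p
    have h1 := log_sp_le e1 (p - 1)
    have h2 : 0 ≤ Real.log (sp (2 ^ e1) (p - 1) : ℝ) := Real.log_natCast_nonneg _
    rw [hB]; simp only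
    split_ifs with hlt
    · have h3 : Real.log K ≤ ((J0 : ℝ) + 1) * Real.log (sp (2 ^ e1) (p - 1) : ℝ) := by
        have : Real.log K ≤ Real.log (((sp (2 ^ e1) (p - 1) : ℕ) : ℝ) ^ (J0 + 1)) := by
          apply Real.log_le_log
          · rw [hK]; positivity
          · exact_mod_cast hlt.le
        rw [Real.log_pow] at this
        push_cast at this
        exact this
      rw [div_mul_eq_mul_div, le_div_iff₀ hlogK0, one_mul]
      refine h3.trans ?_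
      exact mul_le_mul_of_nonneg_left h1 (by positivity)
    · exact mul_nonneg (by positivity) (h2.trans h1)
  have hblk : e0 ≤ Nat.log 2 N + 1 := by
    rw [← hℓ, he0]
    have := Nat.div_le_self ℓ (J0 + 1)
    omega
  have h5 := blocks hblk B hB0
  rw [← hℓ] at h5
  have hterm : ∀ i ∈ Ico e0 (ℓ + 1), ((2 : ℝ) ^ i)⁻¹ * ∑ q ∈ blk (i + 1), (if q ≤ N then B q else 0) ≤
      2 * Cs * (J0 + 1) * e1 / (Real.log K * e0) := by
    intro i hi
    rw [mem_Ico] at hi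
    have i1 : (0 : ℝ) < ((i + 1 : ℕ) : ℝ) := by exact_mod_cast Nat.succ_pos i
    have i2 : (e0 : ℝ) ≤ ((i + 1 : ℕ) : ℝ) := by exact_mod_cast (by omega : e0 ≤ i + 1)
    have htot := Pool.Agent.N907.EG.Small.total (i + 1) e1 (by omega) (by omega) C₁ (hM e1 (by omega)) (by
      apply Real.le_sqrt_of_sq_le
      have : (2 ^ e1 * (i + 1) ^ 2) ^ 2 ≤ 2 ^ (i + 1) := by
        have g1 : i + 1 ≤ (t + 1) * (3 * (J0 + 1)) := by
          calc i + 1 ≤ e0 * (J0 + 1) := by omega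
            _ ≤ (3 * t + 3) * (J0 + 1) := Nat.mul_le_mul_right _ he0t.2
            _ = (t + 1) * (3 * (J0 + 1)) := by ring
        have g2 : 2 ≤ (t + 1) * (3 * (J0 + 1)) := by nlinarith
        have g3 : 2 * (i + 1) ^ 4 ≤ 2 ^ (t + 1) := by
          calc 2 * (i + 1) ^ 4 ≤ ((t + 1) * (3 * (J0 + 1))) * ((t + 1) * (3 * (J0 + 1))) ^ 4 :=
                Nat.mul_le_mul g2 (Nat.pow_le_pow_left g1 4)
            _ = ((t + 1) * (3 * (J0 + 1))) ^ 5 := by ring
            _ ≤ 2 ^ (t + 1) := hgrow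
        have g4 : 2 * (2 ^ e1 * (i + 1) ^ 2) ^ 2 ≤ 2 * 2 ^ (i + 1) := by
          calc 2 * (2 ^ e1 * (i + 1) ^ 2) ^ 2 = 2 ^ (2 * e1) * (2 * (i + 1) ^ 4) := by
                rw [mul_pow, ← pow_mul, ← pow_mul, mul_comm e1 2]
                ring
            _ ≤ 2 ^ (2 * t + 2) * 2 ^ (t + 1) :=
                Nat.mul_le_mul (Nat.pow_le_pow_right (by norm_num) (by omega)) g3
            _ = 2 * 2 ^ (3 * t + 2) := by
                rw [← pow_add, ← pow_succ']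
                congr 1
                ring
            _ ≤ 2 * 2 ^ (i + 1) :=
                Nat.mul_le_mul_left _ (Nat.pow_le_pow_right (by norm_num) (by omega))
        exact Nat.le_of_mul_le_mul_left g4 (by norm_num)
      exact_mod_cast this) (by
      have : (i + 1) ^ 2 ≤ 2 ^ e1 := by
        calc (i + 1) ^ 2 ≤ (e1 * (J1 + 1)) ^ 2 := Nat.pow_le_pow_left (by omega) 2
          _ ≤ 2 ^ e1 := hM2 e1 (by omega)
      exact_mod_cast this)
    rw [← hCs] at htot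
    calc ((2 : ℝ) ^ i)⁻¹ * ∑ q ∈ blk (i + 1), (if q ≤ N then B q else 0)
        ≤ ((2 : ℝ) ^ i)⁻¹ * ∑ q ∈ blk (i + 1), ((J0 : ℝ) + 1) / Real.log K * Bsm e1 (q - 1) := by
          apply mul_le_mul_of_nonneg_left _ (by positivity)
          apply sum_le_sum
          intro q _
          split_ifs
          · exact hBle q
          · exact (hB0 q).trans (hBle q)
      _ = ((2 : ℝ) ^ i)⁻¹ * (((J0 : ℝ) + 1) / Real.log K) * ∑ q ∈ blk (i + 1), Bsm e1 (q - 1) := by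
          rw [← mul_sum]; ring
      _ ≤ ((2 : ℝ) ^ i)⁻¹ * (((J0 : ℝ) + 1) / Real.log K) * (Cs * 2 ^ (i + 1) * e1 / ((i + 1 : ℕ) : ℝ)) :=
          mul_le_mul_of_nonneg_left htot (by positivity)
      _ = (2 * Cs * (J0 + 1) * e1 / Real.log K) / ((i + 1 : ℕ) : ℝ) := by
          rw [pow_succ]
          field_simp
      _ ≤ (2 * Cs * (J0 + 1) * e1 / Real.log K) / e0 :=
          div_le_div_of_nonneg_left (by positivity) e0r i2
      _ = _ := by rw [div_div]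
  refine h5.trans ((sum_le_sum hterm).trans ?_)
  rw [sum_const, Nat.card_Ico, nsmul_eq_mul]
  have hn : ((ℓ + 1 - e0 : ℕ) : ℝ) ≤ e0 * (J0 + 1) := by
    exact_mod_cast (Nat.sub_le _ _).trans f0
  have he1r : (e1 : ℝ) ≤ 2 * ℓ / (J1 + 1) := by
    rw [le_div_iff₀ (by positivity)]
    have h1 : e1 * (J1 + 1) ≤ 2 * ℓ := by
      have h2 := Nat.div_mul_le_self ℓ (J1 + 1)
      have h3 : J1 + 1 ≤ ℓ := by
        have := Nat.div_le_self ℓ (J1 + 1)
        omega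
      rw [he1]
      nlinarith
    exact_mod_cast h1
  calc ((ℓ + 1 - e0 : ℕ) : ℝ) * (2 * Cs * (J0 + 1) * e1 / (Real.log K * e0))
      ≤ (e0 * (J0 + 1)) * (2 * Cs * (J0 + 1) * e1 / (Real.log K * e0)) :=
        mul_le_mul_of_nonneg_right hn (by positivity)
    _ = 2 * Cs * (J0 + 1) ^ 2 * e1 / Real.log K := by field_simp
    _ ≤ 2 * Cs * (J0 + 1) ^ 2 * (2 * ℓ / (J1 + 1)) / (ℓ * Real.log 2 / (2 * E)) := by
        apply div_le_div₀ (by positivity) _ (by positivity) hlogK2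
        exact mul_le_mul_of_nonneg_left he1r (by positivity)
    _ = 8 * Cs / Real.log 2 * (J0 + 1) ^ 2 * E / (J1 + 1) := by
        field_simp
        ring

end Pool.Agent.N826.IT
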