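import Pool.Agent.N826.IT.B
import Pool.Agent.N826.IT.C2
import Pool.Agent.N826.IT.D2

set_option autoImplicit false

/-!
Iterated totients, part E: nice chains.
-/

namespace Pool.Agent.N826.IT

open Finset Classical
open Pool.Agent.N733.TG

/-- the thresholds -/
def zz (N J : ℕ) : ℕ := 2 ^ (Nat.log 2 N / (J + 1) + 1)

lemma zz_big (N J : ℕ) : N < (zz N J + 1) ^ (J + 1) := z_big N J

lemma zz_anti (N : ℕ) {J J' : ℕ} (h : J ≤ J') : zz N J' ≤ zz N J := by
  unfold zz
  apply Nat.pow_le_pow_right (by norm_num)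
  have : Nat.log 2 N / (J' + 1) ≤ Nat.log 2 N / (J + 1) := Nat.div_le_div_left (by omega) (by omega)
  omega

lemma zz_pow (N J : ℕ) : 2 ^ (Nat.log 2 N + 1) ≤ (zz N J) ^ (J + 1) := by
  unfold zz
  rw [← pow_mul]
  exact Nat.pow_le_pow_right (by norm_num) (e_facts N J)

lemma NoSq_mono {z z' N n : ℕ} (h : z ≤ z') (h1 : NoSq z N n) : NoSq z' N n := by
  intro p hp
  obtain ⟨⟨a1, a2⟩, a3⟩ := mem_PR.1 hp
  exact h1 p (mem_PR.2 ⟨⟨by omega, a2⟩, a3⟩)

lemma S_iter {z N : ℕ} {α : ℕ → ℝ} (h0 : ∀ p, 0 ≤ α p) (i : ℕ) : ∀ {m : ℕ}, 1 ≤ m → m ≤ N →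
    (∀ l < i, NoSq z N (Nat.totient^[l] m)) →
    S z N α (Nat.totient^[i] m) ≤ S z N ((T z N)^[i] α) m := by
  induction i with
  | zero => intro m _ _ _; exact le_rfl
  | succ i ih =>
    intro m hm hmN hs
    rw [Function.iterate_succ_apply, Function.iterate_succ_apply']
    refine (ih (Nat.totient_pos.2 hm) ((Nat.totient_le m).trans hmN) ?_).trans
      (S_step (Titer_nonneg h0 i) hm hmN (hs 0 (by omega)))
    intro l hl
    have := hs (l + 1) (by omega)
    rwa [Function.iterate_succ_apply] at this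

/-- few `m` such that an iterate of the totient has a prime factor of a thin set -/
lemma bad_count {z N : ℕ} (B : ℕ → Prop) (i : ℕ) :
    (((Icc 1 N).filter (fun m => (∀ l < i, NoSq z N (Nat.totient^[l] m)) ∧
      ∃ p ∈ PR z N, p ∣ Nat.totient^[i] m ∧ B p)).card : ℝ) ≤
      N * H z N ((T z N)^[i] (fun p => if B p then 1 else 0)) := by
  set α : ℕ → ℝ := fun p => if B p then 1 else 0 with hα
  have a0 : ∀ p, 0 ≤ α p := fun p => by rw [hα]; simp only; split_ifs <;> norm_num
  refine le_trans ?_ (avg_S (Titer_nonneg a0 i))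
  have hcard : (((Icc 1 N).filter (fun m => (∀ l < i, NoSq z N (Nat.totient^[l] m)) ∧
      ∃ p ∈ PR z N, p ∣ Nat.totient^[i] m ∧ B p)).card : ℝ) =
      ∑ m ∈ Icc 1 N, (if ((∀ l < i, NoSq z N (Nat.totient^[l] m)) ∧
      ∃ p ∈ PR z N, p ∣ Nat.totient^[i] m ∧ B p) then (1 : ℝ) else 0) := by
    rw [← sum_filter, sum_const, nsmul_eq_mul, mul_one]
  rw [hcard]
  apply sum_le_sum
  intro m hm
  rw [mem_Icc] at hm
  split_ifs with h
  · obtain ⟨h1, p, hp, hd, hB⟩ := h
    refine le_trans ?_ (S_iter a0 i hm.1 hm.2 h1)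
    unfold S
    refine le_trans ?_ (single_le_sum (f := fun p => if p ∣ Nat.totient^[i] m then α p else 0)
      (fun q _ => by split_ifs; exacts [a0 q, le_rfl]) hp)
    simp only [hd, if_true, hα, hB]
    exact le_rfl
  · exact S_nonneg (Titer_nonneg a0 i) m

lemma sp_mul {z a b : ℕ} (ha : a ≠ 0) (hb : b ≠ 0) : sp z (a * b) = sp z a * sp z b := by
  have h1 := log_sp z (a * b)
  rw [Nat.factorization_mul ha hb] at h1
  have h2 : ∑ p ∈ PZ z, (((a.factorization + b.factorization) p : ℕ) : ℝ) * Real.log p =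
      Real.log (sp z a) + Real.log (sp z b) := by
    rw [log_sp, log_sp, ← sum_add_distrib]
    apply sum_congr rfl
    intro p _
    rw [Finsupp.add_apply]
    push_cast
    ring
  rw [h2] at h1
  have p1 : (0 : ℝ) < sp z (a * b) := by exact_mod_cast sp_pos z _
  have p2 : (0 : ℝ) < sp z a := by exact_mod_cast sp_pos z _
  have p3 : (0 : ℝ) < sp z b := by exact_mod_cast sp_pos z _
  rw [← Real.log_mul p2.ne' p3.ne'] at h1
  have h3 := Real.log_injOn_pos (Set.mem_Ioi.2 p1) (Set.mem_Ioi.2 (mul_pos p2 p3)) h1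
  exact_mod_cast h3

lemma sp_prod {z : ℕ} (s : Finset ℕ) (g : ℕ → ℕ) (hg : ∀ p ∈ s, g p ≠ 0) :
    sp z (∏ p ∈ s, g p) = ∏ p ∈ s, sp z (g p) := by
  induction s using Finset.induction_on with
  | empty =>
    rw [prod_empty, prod_empty]
    unfold sp
    rw [Nat.primeFactors_one, prod_empty]
  | insert a s ha ih =>
    rw [prod_insert ha, prod_insert ha, sp_mul (hg a (mem_insert_self a s))
      (prod_ne_zero_iff.2 fun p hp => hg p (mem_insert_of_mem hp)), ih fun p hp => hg p (mem_insert_of_mem hp)]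

/-- the smooth part of `φ r` -/
lemma sp_small {N z z' J K r : ℕ} (hz : N < (z + 1) ^ (J + 1)) (hr : Squarefree r) (hR : Rough z r)
    (hr1 : 1 ≤ r) (hrN : r ≤ N) (hK : 1 ≤ K)
    (h : ∀ p ∈ PR z N, p ∣ r → (sp z' (p - 1)) ^ (J + 1) ≤ K) : sp z' (Nat.totient r) ≤ K := by
  have e1 : Nat.totient r = ∏ p ∈ r.primeFactors, (p - 1) := by
    rw [Nat.totient_eq_div_primeFactors_mul, Nat.prod_primeFactors_of_squarefree hr, Nat.div_self (by omega),
      one_mul]
  have e2 : sp z' (Nat.totient r) = ∏ p ∈ r.primeFactors, sp z' (p - 1) := by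
    rw [e1]
    apply sp_prod
    intro p hp
    have := (Nat.prime_of_mem_primeFactors hp).two_le
    omega
  have h1 : (sp z' (Nat.totient r)) ^ (J + 1) ≤ K ^ (J + 1) := by
    rw [e2, ← prod_pow]
    calc ∏ p ∈ r.primeFactors, (sp z' (p - 1)) ^ (J + 1) ≤ ∏ p ∈ r.primeFactors, K := by
          apply prod_le_prod' 
          intro p hp
          rw [Nat.mem_primeFactors] at hp
          have := Nat.le_of_dvd (by omega) hp.2.1
          exact h p (mem_PR.2 ⟨⟨hR p hp.1 hp.2.1, by omega⟩, hp.1⟩) hp.2.1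
      _ = K ^ r.primeFactors.card := by rw [prod_const]
      _ ≤ K ^ (J + 1) := Nat.pow_le_pow_right hK (by
          have := omega_le hz hR hr1 hrN
          omega)
  exact (Nat.pow_le_pow_iff_left (by omega)).1 h1

/-- nice chains with an exceptional last member are counted by `BN` -/
lemma chain {f : ℕ → ℕ} {c : ℤ} (hf : SM f c) {P : ℕ} (hP : ∀ p : ℕ, P ≤ p → p.Prime → (f p : ℤ) = p + c)
    {a : ℤ} {Good : ℕ → Prop} {N K : ℕ} (hK1 : 1 ≤ K) (hKN : K < 2 ^ (Nat.log 2 N + 1)) : ∀ (k : ℕ) (J : ℕ → ℕ),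
    P ≤ zz N (J k) → a.natAbs + c.natAbs ≤ zz N (J k) →
    ∀ n q r : ℕ, 1 ≤ n → n ≤ N → n = q * r → Nat.Coprime q r → Squarefree r → Rough (zz N (J 0)) r → r ≠ 1 →
      (∀ j ≤ k, NoSq (zz N (J j)) N (Nat.totient^[j] n)) →
      (∀ i < k, ∀ p ∈ PR (zz N (J i)) N, p ∣ Nat.totient^[i] n →
        (sp (zz N (J (i + 1))) (p - 1)) ^ (J i + 1) ≤ K) →
      ¬ (0 < (f (Nat.totient^[k] n) : ℤ) + a ∧ Good ((f (Nat.totient^[k] n) : ℤ) + a).toNat) →
      BN f a Good K ((List.range k).map (fun i => zz N (J (i + 1)))) (zz N (J 0)) q r := by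
  intro k
  induction k with
  | zero =>
    intro J hJP hJa n q r hn hnN hqr hc hsq hR hr1 hns hB hbad
    simp only [Function.iterate_zero, id] at hbad
    rw [List.range_zero, List.map_nil]
    have hfn : (f n : ℤ) = (f q : ℤ) * f r := by
      rw [hqr, hf.mul q r hc]
      push_cast
      rfl
    have hq : 1 ≤ q := by
      rcases Nat.eq_zero_or_pos q with h0 | h0
      · rw [h0, zero_mul] at hqr; omega
      · exact h0
    have hbig := lower hf hP hJP hsq hr1 hR a.natAbs hJa
    have hfq := hf.pos q hq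
    have hpos : 0 < (f n : ℤ) + a := by
      have h4 : a.natAbs < f n := by
        rw [hqr, hf.mul q r hc]
        nlinarith
      omega
    refine ⟨hsq, hR, ?_, ?_⟩
    · rw [← hfn]; exact hpos
    · rw [← hfn]; exact fun h => hbad ⟨hpos, h⟩
  | succ k ih =>
    intro J hJP hJa n q r hn hnN hqr hc hsq hR hr1 hns hB hbad
    rw [List.range_succ_eq_map, List.map_cons, List.map_map]
    have hrpos : 1 ≤ r := by
      rcases Nat.eq_zero_or_pos r with h0 | h0
      · rw [h0, mul_zero] at hqr; omega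
      · exact h0
    have hqpos : 1 ≤ q := by
      rcases Nat.eq_zero_or_pos q with h0 | h0
      · rw [h0, zero_mul] at hqr; omega
      · exact h0
    have hrn : r ∣ n := ⟨q, by rw [hqr, mul_comm]⟩
    have hrN : r ≤ N := (Nat.le_of_dvd (by omega) hrn).trans hnN
    set z' := zz N (J (0 + 1)) with hz'
    set s := sp z' (Nat.totient r) with hs
    set r' := rp z' (Nat.totient r) with hr'
    have hφr : Nat.totient r ≠ 0 := (Nat.totient_pos.2 hrpos).ne'
    have hmul : s * r' = Nat.totient r := sp_mul_rp z' (Nat.totient r) hφr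
    have hB0 : ∀ p ∈ PR (zz N (J 0)) N, p ∣ r → (sp z' (p - 1)) ^ (J 0 + 1) ≤ K := by
      intro p hp hd
      exact hB 0 (by omega) p hp (hd.trans hrn)
    have hsK : s ≤ K := sp_small (zz_big N (J 0)) hsq hR hrpos hrN hK1 hB0
    have hR' : Rough z' r' := fun p hp hd => lt_of_dvd_rp hp hd
    have hφn : Nat.totient n = (Nat.totient q * s) * r' := by
      rw [hqr, Nat.totient_mul hc, mul_assoc, hmul]
    have hφpos : 1 ≤ Nat.totient n := Nat.totient_pos.2 hn
    have hφN : Nat.totient n ≤ N := (Nat.totient_le n).trans hnN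
    have hns1 : NoSq z' N (Nat.totient n) := hns (0 + 1) (by omega)
    have hr'pos : 1 ≤ r' := rp_pos _ _
    have hsq' : Squarefree r' := by
      rw [Nat.squarefree_iff_prime_squarefree]
      intro p hp hd
      have hpr : p ∣ r' := (dvd_mul_right p p).trans hd
      have hpN : p ≤ N := by
        refine (Nat.le_of_dvd hφpos ?_).trans hφN
        rw [hφn]
        exact hpr.trans (dvd_mul_left _ _)
      apply hns1 p (mem_PR.2 ⟨⟨hR' p hp hpr, hpN⟩, hp⟩)
      rw [hφn, pow_two]
      exact hd.trans (dvd_mul_left _ _)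
    have hc' : Nat.Coprime (Nat.totient q * s) r' := by
      by_contra hcon
      obtain ⟨p, hp, h1, h2⟩ := Nat.Prime.not_coprime_iff_dvd.1 hcon
      have hpN : p ≤ N := by
        refine (Nat.le_of_dvd hφpos ?_).trans hφN
        rw [hφn]
        exact h2.trans (dvd_mul_left _ _)
      apply hns1 p (mem_PR.2 ⟨⟨hR' p hp h2, hpN⟩, hp⟩)
      rw [hφn, pow_two]
      exact Nat.mul_dvd_mul h1 h2
    have hr'1 : r' ≠ 1 := by
      obtain ⟨p, hp, hpr⟩ := Nat.exists_prime_and_dvd hr1
      have hzp := hR p hp hpr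
      have hpN : p ≤ N := (Nat.le_of_dvd (by omega) hpr).trans hrN
      have h1 := hB0 p (mem_PR.2 ⟨⟨hzp, hpN⟩, hp⟩) hpr
      have h2 : sp z' (p - 1) < p - 1 := by
        by_contra hcon
        push Not at hcon
        have h3 : (zz N (J 0)) ^ (J 0 + 1) ≤ (sp z' (p - 1)) ^ (J 0 + 1) :=
          Nat.pow_le_pow_left (by omega) _
        have h4 := zz_pow N (J 0)
        omega
      have hp0 : p - 1 ≠ 0 := by
        have := hp.two_le
        omega
      have h3 : rp z' (p - 1) ≠ 1 := by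
        intro h4
        have h5 := sp_mul_rp z' (p - 1) hp0
        rw [h4, mul_one] at h5
        omega
      obtain ⟨t, ht, htd⟩ := Nat.exists_prime_and_dvd h3
      have ht1 := lt_of_dvd_rp ht htd
      have ht2 : t ∣ p - 1 := by
        rw [← sp_mul_rp z' (p - 1) hp0]
        exact htd.trans (dvd_mul_left _ _)
      have ht3 : t ∣ Nat.totient r := by
        have := Nat.totient_dvd_of_dvd hpr
        rw [Nat.totient_prime hp] at this
        exact ht2.trans this
      rw [← hmul] at ht3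
      have ht4 : t ∣ r' := by
        rcases (ht.dvd_mul).1 ht3 with h5 | h5
        · have := le_of_dvd_sp ht h5
          omega
        · exact h5
      intro h6
      rw [h6] at ht4
      exact ht.one_lt.ne' (Nat.dvd_one.1 ht4)
    have hrec := ih (fun i => J (i + 1)) hJP hJa (Nat.totient n) (Nat.totient q * s) r' hφpos hφN hφn hc' hsq' hR'
      hr'1 (fun j hj => by
        have := hns (j + 1) (by omega)
        rwa [Function.iterate_succ_apply] at this) (fun i hi p hp hd => by
        have := hB (i + 1) (by omega) p hp (by rwa [Function.iterate_succ_apply])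
        exact this) (by rwa [Function.iterate_succ_apply] at hbad)
    exact ⟨hsq, hR, hsK, hrec⟩

end Pool.Agent.N826.IT
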